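import Pool.Agent.Lib.MP_ed661f_ag.R.Bez

/-!
Two square grids on a quadric. `ff a` is the line `u = a`; `gg u1 u2 k` is the curve of bidegree
`(1,1)` through `(u1, 0)` and `(u2, 1)`. The points of the two grids are the intersection points of
the lines and curves of even index with the curves and lines of odd index.
-/

set_option autoImplicit false

open MvPolynomial

namespace Pool.Agent.Lib.MP_ed661f_ag.Ro

open Pool.Agent.Lib.MP_ed661f_ag.E Pool.Agent.Lib.MP_ed661f_ag.R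

/-- the abscissas of the lines -/
noncomputable def al (n : ℕ) : ℂ := (n : ℂ) + 1

/-- the parameters of the curves -/
noncomputable def ka (n : ℕ) : ℂ := ((n : ℂ) + 1) * Complex.I

/-- the line `u = a` -/
noncomputable def ff (a : ℂ) : Pol := X 0 - C a

/-- the curve with parameter `k` -/
noncomputable def gg (u1 u2 : ℝ) (k : ℂ) : Pol :=
  X 1 * ((X 0 - C (u1 : ℂ)) - C k * (X 0 - C (u2 : ℂ))) - (X 0 - C (u1 : ℂ))

/-- the ordinate of the intersection point of `u = a` and the curve with parameter `k` -/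
noncomputable def zz (u1 u2 : ℝ) (a k : ℂ) : ℂ := (a - u1) / ((a - u1) - k * (a - u2))

/-- the points of the two grids -/
noncomputable def gpos (u1 u2 : ℝ) {j : ℕ} (q : Fin 2 × (Fin j × Fin j)) : Pt :=
  ![al (2 * q.2.1 + q.1), zz u1 u2 (al (2 * q.2.1 + q.1)) (ka (2 * q.2.2 + (1 - q.1)))]

/-- the numbers `1, 2, ..` are different from `u` -/
def NoNat (u : ℝ) : Prop := ∀ n : ℕ, (n : ℝ) + 1 ≠ u

theorem al_eq (n : ℕ) : al n = (((n : ℝ) + 1 : ℝ) : ℂ) := by
  unfold al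
  push_cast
  rfl

theorem al_ne {u : ℝ} (h : NoNat u) (n : ℕ) : al n - u ≠ 0 := by
  intro h1
  apply h n
  rw [al_eq] at h1
  have h2 : ((((n : ℝ) + 1) - u : ℝ) : ℂ) = 0 := by
    rw [Complex.ofReal_sub]
    exact h1
  have h3 : ((n : ℝ) + 1) - u = 0 := by exact_mod_cast h2
  linarith

theorem al_injective : Function.Injective al := by
  intro m n h
  unfold al at h
  have : (m : ℂ) = n := by linear_combination h
  exact_mod_cast this

theorem ka_injective : Function.Injective ka := by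
  intro m n h
  unfold ka at h
  have h1 := mul_right_cancel₀ Complex.I_ne_zero h
  have : (m : ℂ) = n := by linear_combination h1
  exact_mod_cast this

theorem ka_ne (n : ℕ) : ka n ≠ 0 := by
  unfold ka
  refine mul_ne_zero ?_ Complex.I_ne_zero
  have : ((n : ℂ) + 1) = ((n + 1 : ℕ) : ℂ) := by push_cast; ring
  rw [this, Nat.cast_ne_zero]
  omega

/-- the denominators -/
theorem den_ne {u1 : ℝ} (h1 : NoNat u1) (u2 : ℝ) (m n : ℕ) :
    (al m - u1) - ka n * (al m - u2) ≠ 0 := by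
  intro h
  have h2 := congrArg Complex.re h
  have h3 : ((al m - (u1 : ℂ)) - ka n * (al m - u2)).re = ((m : ℝ) + 1) - u1 := by
    rw [al_eq]
    unfold ka
    simp [Complex.mul_re, Complex.mul_im]
  rw [h3, Complex.zero_re] at h2
  exact h1 m (by linarith)

theorem zz_injective {u1 u2 : ℝ} (h1 : NoNat u1) (h2 : NoNat u2) (m : ℕ) {k l : ℕ}
    (h : zz u1 u2 (al m) (ka k) = zz u1 u2 (al m) (ka l)) : k = l := by
  unfold zz at h
  rw [div_eq_div_iff (den_ne h1 u2 m k) (den_ne h1 u2 m l)] at h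
  have h3 := mul_left_cancel₀ (al_ne h1 m) h
  have h4 : (ka k - ka l) * (al m - u2) = 0 := by linear_combination h3
  rcases mul_eq_zero.1 h4 with h5 | h5
  · exact ka_injective (by linear_combination h5)
  · exact absurd h5 (al_ne h2 m)

theorem gpos_injective {u1 u2 : ℝ} (h1 : NoNat u1) (h2 : NoNat u2) {j : ℕ} :
    Function.Injective (gpos u1 u2 : Fin 2 × (Fin j × Fin j) → Pt) := by
  rintro ⟨s, i, l⟩ ⟨s', i', l'⟩ h
  have e0 := al_injective (congrFun h 0)
  have e1 := congrFun h 1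
  simp only at e0
  have hs := s.2
  have hs' := s'.2
  have e2 : s = s' := Fin.ext (by omega)
  subst e2
  have e3 : i = i' := Fin.ext (by omega)
  subst e3
  have e4 := zz_injective h1 h2 _ e1
  simp only at e4
  have e5 : l = l' := Fin.ext (by omega)
  rw [e5]

/-! ### the lines and curves -/

theorem eval_ff (p : Pt) (a : ℂ) : eval p (ff a) = p 0 - a := by
  simp [ff]

theorem eval_gg (u1 u2 : ℝ) (p : Pt) (k : ℂ) :
    eval p (gg u1 u2 k) = p 1 * ((p 0 - u1) - k * (p 0 - u2)) - (p 0 - u1) := by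
  simp [gg]

theorem ff_ne (a : ℂ) : ff a ≠ 0 := by
  intro h
  have := congrArg (eval (fun _ => a + 1)) h
  rw [eval_ff] at this
  simp at this

theorem gg_ne {u1 : ℝ} (u2 : ℝ) (k : ℂ) : gg u1 u2 k ≠ 0 := by
  intro h
  have := congrArg (eval ![(u1 : ℂ) + 1, 0]) h
  rw [eval_gg] at this
  simp at this

theorem irreducible_ff (a : ℂ) : Irreducible (ff a) := by
  have h := irreducible_mul_X_add (1 : Pol) (-C a) 0 one_ne_zero (by
    rw [← C_1, vars_C]
    simp) (by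
    rw [← C_neg, vars_C]
    simp) isRelPrime_one_left
  have e : ff a = 1 * X 0 + -C a := by
    unfold ff
    ring
  rw [e]
  exact h

theorem degreeOf_ff (a : ℂ) : (ff a).degreeOf 0 ≤ 1 ∧ (ff a).degreeOf 1 = 0 := by
  constructor
  · refine (degreeOf_sub_le 0 _ _).trans ?_
    rw [degreeOf_X, degreeOf_C]
    simp
  · refine Nat.le_zero.1 ((degreeOf_sub_le 1 _ _).trans ?_)
    rw [degreeOf_X, degreeOf_C]
    simp

theorem degreeOf_gg (u1 u2 : ℝ) (k : ℂ) (i : Fin 2) : (gg u1 u2 k).degreeOf i ≤ 1 := by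
  have a0 : ∀ u : ℂ, (X 0 - C u : Pol).degreeOf i ≤ if i = 0 then 1 else 0 := by
    intro u
    refine (degreeOf_sub_le i _ _).trans ?_
    rw [degreeOf_X, degreeOf_C]
    simp
  have a1 : ((X 0 - C (u1 : ℂ)) - C k * (X 0 - C (u2 : ℂ)) : Pol).degreeOf i ≤
      if i = 0 then 1 else 0 := by
    refine (degreeOf_sub_le i _ _).trans (max_le (a0 _) ?_)
    exact (degreeOf_C_mul_le _ _ _).trans (a0 _)
  unfold gg
  refine (degreeOf_sub_le i _ _).trans (max_le ?_ ?_)
  · refine (degreeOf_mul_le i _ _).trans ?_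
    rw [degreeOf_X]
    fin_cases i
    · simp at a1 ⊢
      exact a1
    · simp at a1 ⊢
      omega
  · refine (a0 _).trans ?_
    split_ifs <;> simp

/-- a prime does not divide a line and a curve -/
theorem not_dvd_fg {u1 : ℝ} (h1 : NoNat u1) (u2 : ℝ) {H : Pol} (hH : Irreducible H) (m : ℕ) (k : ℂ)
    (hf : H ∣ ff (al m)) (hg : H ∣ gg u1 u2 k) : False := by
  have h2 := hH.associated_of_dvd (irreducible_ff _) hf
  have h3 : ff (al m) ∣ gg u1 u2 k := h2.symm.dvd.trans hg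
  obtain ⟨K, hK⟩ := h3
  have h4 := congrArg (eval ![al m, 0]) hK
  rw [eval_gg, map_mul, eval_ff] at h4
  simp only [Matrix.cons_val_zero, Matrix.cons_val_one, Matrix.cons_val_fin_one, sub_self,
    zero_mul, zero_sub] at h4
  exact al_ne h1 m (neg_eq_zero.1 h4)

/-- a prime does not divide two lines -/
theorem not_dvd_ff {H : Pol} (hH : Irreducible H) {m n : ℕ} (hmn : m ≠ n)
    (hf : H ∣ ff (al m)) (hg : H ∣ ff (al n)) : False := by
  have h1 : H ∣ C (al n - al m) := by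
    have : (C (al n - al m) : Pol) = ff (al m) - ff (al n) := by
      unfold ff
      rw [C_sub]
      ring
    rw [this]
    exact dvd_sub hf hg
  have h2 : IsUnit (C (al n - al m) : Pol) := by
    apply IsUnit.map
    rw [isUnit_iff_ne_zero, sub_ne_zero]
    exact fun h => hmn (al_injective h).symm
  exact hH.not_isUnit (isUnit_of_dvd_unit h1 h2)

/-- a prime does not divide two curves -/
theorem not_dvd_gg {u1 u2 : ℝ} (h12 : u1 ≠ u2) {H : Pol} (hH : Irreducible H) {m n : ℕ}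
    (hmn : m ≠ n) (hf : H ∣ gg u1 u2 (ka m)) (hg : H ∣ gg u1 u2 (ka n)) : False := by
  have h1 : H ∣ C (ka n - ka m) * (X 1 * ff (u2 : ℂ)) := by
    have : (C (ka n - ka m) * (X 1 * ff (u2 : ℂ)) : Pol) = gg u1 u2 (ka m) - gg u1 u2 (ka n) := by
      unfold ff gg
      rw [C_sub]
      ring
    rw [this]
    exact dvd_sub hf hg
  have h2 : IsUnit (C (ka n - ka m) : Pol) := by
    apply IsUnit.map
    rw [isUnit_iff_ne_zero, sub_ne_zero]
    exact fun h => hmn (ka_injective h).symm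
  have h3 : H ∣ X 1 * ff (u2 : ℂ) := (h2.dvd_mul_left).1 h1
  rcases hH.prime.dvd_or_dvd h3 with h4 | h4
  · have h5 := hH.associated_of_dvd (X_prime (σ := Fin 2) (R := ℂ) (i := 1)).irreducible h4
    obtain ⟨K, hK⟩ := h5.symm.dvd.trans hf
    have h6 := congrArg (eval ![(u1 : ℂ) + 1, 0]) hK
    rw [eval_gg, map_mul, eval_X] at h6
    simp at h6
  · have h5 := hH.associated_of_dvd (irreducible_ff _) h4
    obtain ⟨K, hK⟩ := h5.symm.dvd.trans hf
    have h6 := congrArg (eval ![(u2 : ℂ), 0]) hK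
    rw [eval_gg, map_mul, eval_ff] at h6
    simp only [Matrix.cons_val_zero, Matrix.cons_val_one, Matrix.cons_val_fin_one, sub_self,
      zero_mul, zero_sub, mul_zero, sub_zero] at h6
    have h7 : (u2 : ℂ) - u1 = 0 := by linear_combination -h6
    apply h12
    have h8 : (u2 : ℂ) = u1 := sub_eq_zero.1 h7
    exact_mod_cast h8.symm

/-! ### the products -/

/-- the product of the lines and curves of even (`s = 0`) or odd (`s = 1`) index -/
noncomputable def DD (u1 u2 : ℝ) (j s : ℕ) : Pol :=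
  ∏ i : Fin j, (ff (al (2 * i + s)) * gg u1 u2 (ka (2 * i + s)))

theorem DD_ne (u1 u2 : ℝ) (j s : ℕ) : DD u1 u2 j s ≠ 0 :=
  Finset.prod_ne_zero_iff.2 fun _ _ => mul_ne_zero (ff_ne _) (gg_ne _ _)

theorem degreeOf_prod_le' {ι : Type*} (S : Finset ι) (f : ι → Pol) (i : Fin 2) :
    (∏ x ∈ S, f x).degreeOf i ≤ ∑ x ∈ S, (f x).degreeOf i := by
  classical
  induction S using Finset.induction_on with
  | empty =>
    rw [Finset.prod_empty, Finset.sum_empty, ← C_1, degreeOf_C]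
  | insert a s ha ih =>
    rw [Finset.prod_insert ha, Finset.sum_insert ha]
    exact (degreeOf_mul_le _ _ _).trans (Nat.add_le_add_left ih _)

theorem degreeOf_DD (u1 u2 : ℝ) (j s : ℕ) :
    (DD u1 u2 j s).degreeOf 0 ≤ 2 * j ∧ (DD u1 u2 j s).degreeOf 1 ≤ j := by
  constructor
  · refine (degreeOf_prod_le' _ _ _).trans ?_
    calc ∑ i : Fin j, (ff (al (2 * i + s)) * gg u1 u2 (ka (2 * i + s))).degreeOf 0
        ≤ ∑ _i : Fin j, 2 := by
          refine Finset.sum_le_sum fun i _ => (degreeOf_mul_le _ _ _).trans ?_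
          have h1 := (degreeOf_ff (al (2 * i + s))).1
          have h2 := degreeOf_gg u1 u2 (ka (2 * i + s)) 0
          omega
      _ = 2 * j := by simp [mul_comm]
  · refine (degreeOf_prod_le' _ _ _).trans ?_
    calc ∑ i : Fin j, (ff (al (2 * i + s)) * gg u1 u2 (ka (2 * i + s))).degreeOf 1
        ≤ ∑ _i : Fin j, 1 := by
          refine Finset.sum_le_sum fun i _ => (degreeOf_mul_le _ _ _).trans ?_
          have h1 := (degreeOf_ff (al (2 * i + s))).2
          have h2 := degreeOf_gg u1 u2 (ka (2 * i + s)) 1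
          omega
      _ = j := by simp

theorem mlt_prod {ι : Type*} (S : Finset ι) (f : ι → Pol) (h : ∀ x ∈ S, f x ≠ 0) (p : Pt) :
    mlt p (∏ x ∈ S, f x) = ∑ x ∈ S, mlt p (f x) := by
  classical
  induction S using Finset.induction_on with
  | empty =>
    rw [Finset.prod_empty, Finset.sum_empty]
    exact mlt_unit isUnit_one
  | insert a s ha ih =>
    rw [Finset.prod_insert ha, Finset.sum_insert ha, mlt_mul (h a (Finset.mem_insert_self a s))
      (Finset.prod_ne_zero_iff.2 fun x hx => h x (Finset.mem_insert_of_mem hx)),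
      ih fun x hx => h x (Finset.mem_insert_of_mem hx)]

theorem mlt_DD (u1 u2 : ℝ) (j s : ℕ) (p : Pt) : mlt p (DD u1 u2 j s) =
    ∑ i : Fin j, (mlt p (ff (al (2 * i + s))) + mlt p (gg u1 u2 (ka (2 * i + s)))) := by
  unfold DD
  rw [mlt_prod _ _ fun _ _ => mul_ne_zero (ff_ne _) (gg_ne _ _)]
  exact Finset.sum_congr rfl fun i _ => mlt_mul (ff_ne _) (gg_ne _ _)

/-- the base points -/
theorem le_mlt_DD_base (u1 u2 : ℝ) (j s : ℕ) :
    j ≤ mlt ![(u1 : ℂ), 0] (DD u1 u2 j s) ∧ j ≤ mlt ![(u2 : ℂ), 1] (DD u1 u2 j s) := by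
  have key : ∀ p : Pt, (∀ k, eval p (gg u1 u2 k) = 0) → j ≤ mlt p (DD u1 u2 j s) := by
    intro p hp
    rw [mlt_DD]
    calc j = ∑ _i : Fin j, 1 := by simp
      _ ≤ _ := by
        refine Finset.sum_le_sum fun i _ => ?_
        have := (mlt_pos_iff (p := p) (gg_ne (u1 := u1) u2 (ka (2 * i + s)))).2 (hp _)
        omega
  constructor
  · refine key _ fun k => ?_
    rw [eval_gg]
    simp
  · refine key _ fun k => ?_
    rw [eval_gg]
    simp

theorem one_le_DD_ff (u1 u2 : ℝ) {j : ℕ} (s : ℕ) (i : Fin j) {p : Pt}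
    (hp : p 0 = al (2 * i + s)) : 1 ≤ mlt p (DD u1 u2 j s) := by
  rw [mlt_DD]
  have h1 : 1 ≤ mlt p (ff (al (2 * i + s))) := by
    rw [mlt_pos_iff (ff_ne _), eval_ff, hp, sub_self]
  have h2 := Finset.single_le_sum (f := fun i : Fin j =>
    mlt p (ff (al (2 * i + s))) + mlt p (gg u1 u2 (ka (2 * i + s)))) (fun _ _ => Nat.zero_le _)
    (Finset.mem_univ i)
  have h3 : mlt p (ff (al (2 * i + s))) + mlt p (gg u1 u2 (ka (2 * i + s))) ≤
    ∑ i : Fin j, (mlt p (ff (al (2 * i + s))) + mlt p (gg u1 u2 (ka (2 * i + s)))) := h2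
  omega

theorem one_le_DD_gg (u1 u2 : ℝ) {j : ℕ} (s : ℕ) (i : Fin j) {p : Pt}
    (hp : eval p (gg u1 u2 (ka (2 * i + s))) = 0) : 1 ≤ mlt p (DD u1 u2 j s) := by
  rw [mlt_DD]
  have h1 : 1 ≤ mlt p (gg u1 u2 (ka (2 * i + s))) := by
    rw [mlt_pos_iff (gg_ne _ _), hp]
  have h2 := Finset.single_le_sum (f := fun i : Fin j =>
    mlt p (ff (al (2 * i + s))) + mlt p (gg u1 u2 (ka (2 * i + s)))) (fun _ _ => Nat.zero_le _)
    (Finset.mem_univ i)
  have h3 : mlt p (ff (al (2 * i + s))) + mlt p (gg u1 u2 (ka (2 * i + s))) ≤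
    ∑ i : Fin j, (mlt p (ff (al (2 * i + s))) + mlt p (gg u1 u2 (ka (2 * i + s)))) := h2
  omega

theorem eval_gpos_gg {u1 : ℝ} (h1 : NoNat u1) (u2 : ℝ) {j : ℕ} (q : Fin 2 × (Fin j × Fin j)) :
    eval (gpos u1 u2 q) (gg u1 u2 (ka (2 * q.2.2 + (1 - q.1)))) = 0 := by
  have hd := den_ne h1 u2 (2 * q.2.1 + q.1) (2 * q.2.2 + (1 - q.1))
  rw [eval_gg]
  have e0 : gpos u1 u2 q 0 = al (2 * q.2.1 + q.1) := rfl
  have e1 : gpos u1 u2 q 1 = zz u1 u2 (al (2 * q.2.1 + q.1)) (ka (2 * q.2.2 + (1 - q.1))) := rfl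
  rw [e0, e1]
  unfold zz
  rw [div_mul_cancel₀ _ hd, sub_self]

theorem one_le_gpos {u1 : ℝ} (h1 : NoNat u1) (u2 : ℝ) {j : ℕ} (q : Fin 2 × (Fin j × Fin j))
    (s : ℕ) (hs : s ≤ 1) : 1 ≤ mlt (gpos u1 u2 q) (DD u1 u2 j s) := by
  have hσ := q.1.2
  by_cases h : (q.1 : ℕ) = s
  · exact one_le_DD_ff u1 u2 s q.2.1 (by rw [← h]; rfl)
  · refine one_le_DD_gg u1 u2 s q.2.2 ?_
    have h2 : 1 - (q.1 : ℕ) = s := by omega
    have h3 := eval_gpos_gg h1 u2 q
    rw [h2] at h3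
    exact h3

/-- an irreducible polynomial is prime to one of the two products -/
theorem rel_or {u1 u2 : ℝ} (h1 : NoNat u1) (h12 : u1 ≠ u2) (j : ℕ) {H : Pol}
    (hH : Irreducible H) : ¬ (H ∣ DD u1 u2 j 0 ∧ H ∣ DD u1 u2 j 1) := by
  rintro ⟨h2, h3⟩
  have key : ∀ s, H ∣ DD u1 u2 j s → ∃ i : Fin j, H ∣ ff (al (2 * i + s)) ∨
      H ∣ gg u1 u2 (ka (2 * i + s)) := by
    intro s hs
    obtain ⟨i, -, hi⟩ := (Prime.dvd_finsetProd_iff hH.prime _).1 hs
    exact ⟨i, hH.prime.dvd_or_dvd hi⟩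
  obtain ⟨i, hi⟩ := key 0 h2
  obtain ⟨l, hl⟩ := key 1 h3
  have hne : 2 * (i : ℕ) + 0 ≠ 2 * (l : ℕ) + 1 := by omega
  rcases hi with hi | hi
  · rcases hl with hl | hl
    · exact not_dvd_ff hH hne hi hl
    · exact not_dvd_fg h1 u2 hH _ _ hi hl
  · rcases hl with hl | hl
    · exact not_dvd_fg h1 u2 hH _ _ hl hi
    · exact not_dvd_gg h12 hH hne hi hl

/-- the inequality for one polynomial -/
def GI (u1 u2 : ℝ) (j : ℕ) (H : Pol) : Prop :=
  j * (mlt ![(u1 : ℂ), 0] H + mlt ![(u2 : ℂ), 1] H) +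
    ∑ q : Fin 2 × (Fin j × Fin j), mlt (gpos u1 u2 q) H ≤ j * (2 * H.degreeOf 1 + H.degreeOf 0)

theorem gi_irreducible {u1 u2 : ℝ} (h1 : NoNat u1) (h2 : NoNat u2) (h12 : u1 ≠ u2) (j : ℕ)
    {H : Pol} (hH : Irreducible H) : GI u1 u2 j H := by
  classical
  obtain ⟨s, hs, hrel⟩ : ∃ s, s ≤ 1 ∧ IsRelPrime H (DD u1 u2 j s) := by
    have h3 := rel_or h1 h12 j hH
    by_cases h4 : H ∣ DD u1 u2 j 0
    · exact ⟨1, le_rfl, (hH.isRelPrime_iff_not_dvd).2 fun h5 => h3 ⟨h4, h5⟩⟩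
    · exact ⟨0, zero_le_one, (hH.isRelPrime_iff_not_dvd).2 h4⟩
  let pos : Fin 2 ⊕ (Fin 2 × (Fin j × Fin j)) → Pt :=
    Sum.elim ![![(u1 : ℂ), 0], ![(u2 : ℂ), 1]] (gpos u1 u2)
  have hu : (u1 : ℂ) ≠ u2 := by exact_mod_cast h12
  have hinj : Function.Injective pos := by
    have hb : ∀ (i : Fin 2) (q : Fin 2 × (Fin j × Fin j)), pos (Sum.inl i) ≠ pos (Sum.inr q) := by
      intro i q h
      have h5 := congrFun h 0
      have h6 : pos (Sum.inr q) 0 = al (2 * q.2.1 + q.1) := rfl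
      rw [h6] at h5
      fin_cases i
      · have h7 : (u1 : ℂ) = al (2 * q.2.1 + q.1) := h5
        exact al_ne h1 _ (by rw [← h7, sub_self])
      · have h7 : (u2 : ℂ) = al (2 * q.2.1 + q.1) := h5
        exact al_ne h2 _ (by rw [← h7, sub_self])
    rintro (i | q) (i' | q') h
    · have h5 := congrFun h 0
      fin_cases i <;> fin_cases i'
      · rfl
      · exact absurd h5 hu
      · exact absurd h5.symm hu
      · rfl
    · exact absurd h (hb i q')
    · exact absurd h.symm (hb i' q)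
    · exact congrArg Sum.inr (gpos_injective h1 h2 h)
  have h3 := R.bezout hH.ne_zero (DD_ne u1 u2 j s) hrel (Finset.univ.image pos)
  rw [Finset.sum_image (fun i _ i' _ h => hinj h), Fintype.sum_sum_type, Fin.sum_univ_two] at h3
  obtain ⟨b0, b1⟩ := le_mlt_DD_base u1 u2 j s
  obtain ⟨d0, d1⟩ := degreeOf_DD u1 u2 j s
  have e0 : j * mlt ![(u1 : ℂ), 0] H ≤ mlt (pos (Sum.inl 0)) H * mlt (pos (Sum.inl 0)) (DD u1 u2 j s) := by
    rw [mul_comm]
    exact Nat.mul_le_mul_left _ b0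
  have e1 : j * mlt ![(u2 : ℂ), 1] H ≤ mlt (pos (Sum.inl 1)) H * mlt (pos (Sum.inl 1)) (DD u1 u2 j s) := by
    rw [mul_comm]
    exact Nat.mul_le_mul_left _ b1
  have e2 : ∑ q : Fin 2 × (Fin j × Fin j), mlt (gpos u1 u2 q) H ≤
      ∑ q : Fin 2 × (Fin j × Fin j), mlt (pos (Sum.inr q)) H *
        mlt (pos (Sum.inr q)) (DD u1 u2 j s) := by
    refine Finset.sum_le_sum fun q _ => ?_
    have h5 : 1 ≤ mlt (pos (Sum.inr q)) (DD u1 u2 j s) := one_le_gpos h1 u2 q s hs
    calc mlt (gpos u1 u2 q) H = mlt (gpos u1 u2 q) H * 1 := (mul_one _).symm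
      _ ≤ _ := Nat.mul_le_mul_left _ h5
  have e3 : H.degreeOf 0 * (DD u1 u2 j s).degreeOf 1 ≤ H.degreeOf 0 * j :=
    Nat.mul_le_mul_left _ d1
  have e4 : (DD u1 u2 j s).degreeOf 0 * H.degreeOf 1 ≤ 2 * j * H.degreeOf 1 :=
    Nat.mul_le_mul_right _ d0
  unfold GI
  calc j * (mlt ![(u1 : ℂ), 0] H + mlt ![(u2 : ℂ), 1] H) +
        ∑ q : Fin 2 × (Fin j × Fin j), mlt (gpos u1 u2 q) H
      ≤ H.degreeOf 0 * j + 2 * j * H.degreeOf 1 := by
        rw [mul_add]
        omega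
    _ = j * (2 * H.degreeOf 1 + H.degreeOf 0) := by ring

theorem gi_mul {u1 u2 : ℝ} {j : ℕ} {H K : Pol} (hH : H ≠ 0) (hK : K ≠ 0) (h1 : GI u1 u2 j H)
    (h2 : GI u1 u2 j K) : GI u1 u2 j (H * K) := by
  unfold GI at *
  have e : ∑ q : Fin 2 × (Fin j × Fin j), mlt (gpos u1 u2 q) (H * K) =
      ∑ q : Fin 2 × (Fin j × Fin j), mlt (gpos u1 u2 q) H +
      ∑ q : Fin 2 × (Fin j × Fin j), mlt (gpos u1 u2 q) K := by
    rw [← Finset.sum_add_distrib]
    exact Finset.sum_congr rfl fun q _ => mlt_mul hH hK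
  rw [e, mlt_mul hH hK, mlt_mul hH hK, degreeOf_mul_eq hH hK, degreeOf_mul_eq hH hK]
  nlinarith

/-- **the inequality for two grids** -/
theorem two_grids {u1 u2 : ℝ} (h1 : NoNat u1) (h2 : NoNat u2) (h12 : u1 ≠ u2) (j : ℕ) {H : Pol}
    (hH : H ≠ 0) : j * (mlt ![(u1 : ℂ), 0] H + mlt ![(u2 : ℂ), 1] H) +
      ∑ q : Fin 2 × (Fin j × Fin j), mlt (gpos u1 u2 q) H ≤
      j * (2 * H.degreeOf 1 + H.degreeOf 0) := by
  have key : GI u1 u2 j H := by
    induction H using UniqueFactorizationMonoid.induction_on_prime with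
    | h₁ => exact absurd rfl hH
    | h₂ x hx =>
      unfold GI
      have h3 : ∀ p, mlt p x = 0 := fun p => mlt_unit hx
      simp only [h3]
      simp
    | h₃ x p hx hp ih =>
      exact gi_mul hp.ne_zero hx (gi_irreducible h1 h2 h12 j hp.irreducible) (ih hx)
  exact key

end Pool.Agent.Lib.MP_ed661f_ag.Ro
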