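import Pool.Agent.Lib.MP_ed661f_ag.R.Spec
import Pool.Agent.Lib.MP_ed661f_ag.R.Rev
import Pool.Agent.Lib.MP_ed661f_ag.Ro.Two

/-!
The points which move to the line `v = v0`: their multiplicities are bounded through the leading
part of the equation along the line.
-/

set_option autoImplicit false

open MvPolynomial

namespace Pool.Agent.Lib.MP_ed661f_ag.Ro

open Pool.Agent.Lib.MP_ed661f_ag.E Pool.Agent.Lib.MP_ed661f_ag.R Pool.Agent.Lib.MP_6b2d39_ag

/-- the Taylor coefficients at `v0` in the second variable -/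
noncomputable def tcv {A B : ℕ} (c : Fin (A + 1) × Fin (B + 1) → Polynomial ℂ) (v0 : ℂ)
    (i : Fin (A + 1) × Fin (B + 1)) : Polynomial ℂ :=
  ∑ l : Fin (B + 1), (Polynomial.C v0 ^ ((l : ℕ) - (i.2 : ℕ)) *
    (((l : ℕ).choose (i.2 : ℕ) : ℕ) : Polynomial ℂ)) * c (i.1, l)

theorem shift_v {A B : ℕ} (c : Fin (A + 1) × Fin (B + 1) → Polynomial ℂ) (v0 x0 x1 : ℂ)
    (a b : ℕ) :
    ∑ i : Fin (A + 1) × Fin (B + 1),
      Transfer.entry (Polynomial.C x0) (Polynomial.C x1) a b i.1 i.2 *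
        (Polynomial.X ^ (i.2 : ℕ) * tcv c v0 i) =
      Polynomial.X ^ b * ∑ j : Fin (A + 1) × Fin (B + 1),
        Transfer.entry (Polynomial.C x0)
          (Polynomial.C v0 + Polynomial.X * Polynomial.C x1) a b j.1 j.2 * c j := by
  rw [Fintype.sum_prod_type, Fintype.sum_prod_type, Finset.mul_sum]
  refine Finset.sum_congr rfl fun s _ => ?_
  unfold tcv Transfer.entry
  simp_rw [Finset.mul_sum]
  rw [Finset.sum_comm]
  refine Finset.sum_congr rfl fun l _ => ?_
  have h := one_var (Polynomial.C x1) (Polynomial.C v0) (Polynomial.X : Polynomial ℂ) B b (l : ℕ)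
    (by omega)
  have h2 : ∀ i : Fin (B + 1), (Polynomial.C x0 ^ ((s : ℕ) - a) *
      ((((s : ℕ).choose a : ℕ) : Polynomial ℂ))) *
      (Polynomial.C x1 ^ ((i : ℕ) - b) * ((((i : ℕ).choose b : ℕ) : Polynomial ℂ))) *
      (Polynomial.X ^ (i : ℕ) * (Polynomial.C v0 ^ ((l : ℕ) - (i : ℕ)) *
        ((((l : ℕ).choose (i : ℕ) : ℕ) : Polynomial ℂ)) * c (s, l))) =
      ((Polynomial.C x0 ^ ((s : ℕ) - a) * ((((s : ℕ).choose a : ℕ) : Polynomial ℂ))) * c (s, l)) *
      ((Polynomial.C x1 ^ ((i : ℕ) - b) * ((((i : ℕ).choose b : ℕ) : Polynomial ℂ))) *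
        (Polynomial.X ^ (i : ℕ) * (Polynomial.C v0 ^ ((l : ℕ) - (i : ℕ)) *
        ((((l : ℕ).choose (i : ℕ) : ℕ) : Polynomial ℂ))))) := by
    intro i
    ring
  rw [Finset.sum_congr rfl (fun i _ => h2 i), ← Finset.mul_sum, h]
  ring

theorem X_dvd_tay {v0 : ℂ} {P : Pol} (h : X 1 ∣ tay ![0, v0] P) : (X 1 - C v0) ∣ P := by
  obtain ⟨Q, hQ⟩ := h
  refine ⟨tay (-![0, v0]) Q, ?_⟩
  have h1 : tay (-![0, v0]) (tay ![0, v0] P) = P := by
    have := Bz.tay_neg_tay (-![0, v0]) P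
    rwa [neg_neg] at this
  rw [← h1, hQ, Bz.tay_mul]
  congr 1
  unfold tay
  simp [sub_eq_add_neg]

/-- the cluster of the points on a line -/
theorem line_clus {A B : ℕ} (c : Fin (A + 1) × Fin (B + 1) → Polynomial ℂ) (v0 : ℂ) (e : ℕ)
    (P : Pol) (hP : ofC (fun j => (c j).eval 0) = (X 1 - C v0) ^ e * P)
    (hP0 : ¬ (X 1 - C v0) ∣ P) {u1 u2 : ℝ} (h1 : NoNat u1) (h2 : NoNat u2) (h12 : u1 ≠ u2)
    (j : ℕ) (m1 m2 : ℕ) (m : Fin 2 × (Fin j × Fin j) → ℕ)
    (hm1 : ∀ a b, a + b < m1 → ∑ i : Fin (A + 1) × Fin (B + 1),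
      Transfer.entry (Polynomial.C (u1 : ℂ)) (Polynomial.C v0) a b i.1 i.2 * c i = 0)
    (hm2 : ∀ a b, a + b < m2 → ∑ i : Fin (A + 1) × Fin (B + 1),
      Transfer.entry (Polynomial.C (u2 : ℂ)) (Polynomial.C v0 + Polynomial.X) a b i.1 i.2 * c i
        = 0)
    (hm : ∀ q a b, a + b < m q → ∑ i : Fin (A + 1) × Fin (B + 1),
      Transfer.entry (Polynomial.C (gpos u1 u2 q 0))
        (Polynomial.C v0 + Polynomial.X * Polynomial.C (gpos u1 u2 q 1)) a b i.1 i.2 * c i = 0) :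
    j * (m1 + m2) + ∑ q, m q ≤ j * (2 * e + A) := by
  obtain ⟨hc, hhc⟩ : ∃ hc : Fin (A + 1) × Fin (B + 1) → ℂ,
      hc = fun i => (Polynomial.X ^ (i.2 : ℕ) * tcv c v0 i).coeff e := ⟨_, rfl⟩
  -- a coefficient of `u ^ s z ^ e`
  obtain ⟨s, hs⟩ : ∃ s : ℕ, coeff (Finsupp.single 0 s + Finsupp.single 1 e)
      (tay ![0, v0] (ofC (fun j => (c j).eval 0))) ≠ 0 := by
    have h3 : ¬ X 1 ∣ tay ![0, v0] P := fun h => hP0 (X_dvd_tay h)
    rw [X_dvd_iff_coeff] at h3
    push Not at h3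
    obtain ⟨f, hf, hf0⟩ := h3
    refine ⟨f 0, ?_⟩
    have h4 : tay ![0, v0] (ofC (fun j => (c j).eval 0)) = X 1 ^ e * tay ![0, v0] P := by
      rw [hP, Bz.tay_mul]
      congr 1
      unfold tay
      simp
    rw [h4]
    have h5 : (Finsupp.single 0 (f 0) + Finsupp.single 1 e : Fin 2 →₀ ℕ) =
        f + Finsupp.single 1 e := by
      ext i
      fin_cases i
      · simp
      · simp [hf]
    rw [h5, mul_comm, X_pow_eq_monomial, coeff_mul_monomial, mul_one]
    exact hf0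
  rw [coeff_tay_ofC] at hs
  have hbox : s ≤ A ∧ e ≤ B := by
    obtain ⟨i, -, hi⟩ := Finset.exists_ne_zero_of_sum_ne_zero hs
    have hj1 := left_ne_zero_of_mul hi
    unfold Transfer.entry at hj1
    have h3 := right_ne_zero_of_mul (left_ne_zero_of_mul hj1)
    have h4 := right_ne_zero_of_mul (right_ne_zero_of_mul hj1)
    rw [Nat.cast_ne_zero] at h3 h4
    have h5 : s ≤ (i.1 : ℕ) := by
      by_contra hcon
      exact h3 (Nat.choose_eq_zero_of_lt (not_le.1 hcon))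
    have h6 : e ≤ (i.2 : ℕ) := by
      by_contra hcon
      exact h4 (Nat.choose_eq_zero_of_lt (not_le.1 hcon))
    have h7 := i.1.2
    have h8 := i.2.2
    omega
  have hne : ofC hc ≠ 0 := by
    intro hz
    have h3 := coeff_ofC hc (⟨s, by omega⟩, ⟨e, by omega⟩)
    rw [hz, coeff_zero, hhc] at h3
    simp only at h3
    rw [Polynomial.coeff_X_pow_mul', if_pos le_rfl, Nat.sub_self] at h3
    apply hs
    rw [Fintype.sum_prod_type, Finset.sum_eq_single (⟨s, by omega⟩ : Fin (A + 1))]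
    · refine Eq.trans ?_ h3.symm
      unfold tcv
      rw [Polynomial.finsetSum_coeff]
      refine Finset.sum_congr rfl fun l _ => ?_
      unfold Transfer.entry
      simp only [Fin.isValue, Matrix.cons_val_zero, Matrix.cons_val_one,
        Matrix.cons_val_fin_one, Nat.sub_self, pow_zero, Nat.choose_self, Nat.cast_one, mul_one,
        one_mul]
      have h4 : (Polynomial.C v0 ^ ((l : ℕ) - e) * (((l : ℕ).choose e : ℕ) : Polynomial ℂ)) =
          Polynomial.C (v0 ^ ((l : ℕ) - e) * (((l : ℕ).choose e : ℕ) : ℂ)) := by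
        rw [map_mul, map_pow, map_natCast]
      rw [h4, Polynomial.coeff_C_mul, Polynomial.coeff_zero_eq_eval_zero]
    · intro i _ hi
      refine Finset.sum_eq_zero fun l _ => ?_
      unfold Transfer.entry
      simp only [Fin.isValue, Matrix.cons_val_zero]
      have hi' : (i : ℕ) ≠ s := fun h => hi (Fin.ext h)
      rcases lt_or_gt_of_ne hi' with h4 | h4
      · rw [Nat.choose_eq_zero_of_lt h4]
        simp
      · have h5 : (i : ℕ) - s ≠ 0 := by omega
        rw [zero_pow h5]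
        simp
    · intro h
      exact absurd (Finset.mem_univ _) h
  have hdeg0 : (ofC hc).degreeOf 0 ≤ A := (mem_Box.1 (ofC_mem hc)).1
  have hdeg1 : (ofC hc).degreeOf 1 ≤ e := by
    unfold ofC
    refine (degreeOf_sum_le 1 _ _).trans (Finset.sup_le fun i _ => ?_)
    by_cases hi : hc i = 0
    · rw [hi, monomial_zero, degreeOf_zero]
      exact Nat.zero_le _
    · rw [degreeOf_monomial_eq _ _ hi]
      rw [hhc] at hi
      simp only at hi
      rw [Polynomial.coeff_X_pow_mul'] at hi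
      have h3 : (i.2 : ℕ) ≤ e := by
        by_contra hcon
        exact hi (if_neg hcon)
      simpa using h3
  have key : ∀ (x0 x1 : ℂ) (M : ℕ), (∀ a b, a + b < M → ∑ i : Fin (A + 1) × Fin (B + 1),
      Transfer.entry (Polynomial.C x0) (Polynomial.C v0 + Polynomial.X * Polynomial.C x1) a b
        i.1 i.2 * c i = 0) → M ≤ mlt ![x0, x1] (ofC hc) := by
    intro x0 x1 M hM
    refine le_mlt_ofC hne fun a b hab => ?_
    have h3 := shift_v c v0 x0 x1 a b
    rw [hM a b hab, mul_zero] at h3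
    have h4 := congrArg (fun p => Polynomial.coeff p e) h3
    simp only [Polynomial.finsetSum_coeff, Polynomial.coeff_zero] at h4
    rw [← h4]
    refine Finset.sum_congr rfl fun i _ => ?_
    have h5 := entry_C ![x0, x1] a b i.1 i.2
    simp only [Fin.isValue, Matrix.cons_val_zero, Matrix.cons_val_one,
      Matrix.cons_val_fin_one] at h5 ⊢
    rw [h5, Polynomial.coeff_C_mul, hhc]
  have k1 : m1 ≤ mlt ![(u1 : ℂ), 0] (ofC hc) := by
    refine key _ _ _ fun a b hab => ?_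
    rw [Polynomial.C_0, mul_zero, add_zero]
    exact hm1 a b hab
  have k2 : m2 ≤ mlt ![(u2 : ℂ), 1] (ofC hc) := by
    refine key _ _ _ fun a b hab => ?_
    rw [Polynomial.C_1, mul_one]
    exact hm2 a b hab
  have k3 : ∀ q, m q ≤ mlt (gpos u1 u2 q) (ofC hc) := by
    intro q
    have h3 := key (gpos u1 u2 q 0) (gpos u1 u2 q 1) (m q) fun a b hab => hm q a b hab
    have h4 : ![gpos u1 u2 q 0, gpos u1 u2 q 1] = gpos u1 u2 q := by
      ext i
      fin_cases i <;> rfl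
    rwa [h4] at h3
  calc j * (m1 + m2) + ∑ q, m q ≤ j * (mlt ![(u1 : ℂ), 0] (ofC hc) + mlt ![(u2 : ℂ), 1] (ofC hc))
        + ∑ q : Fin 2 × (Fin j × Fin j), mlt (gpos u1 u2 q) (ofC hc) :=
        add_le_add (Nat.mul_le_mul_left _ (add_le_add k1 k2))
          (Finset.sum_le_sum fun q _ => k3 q)
    _ ≤ j * (2 * (ofC hc).degreeOf 1 + (ofC hc).degreeOf 0) := two_grids h1 h2 h12 j hne
    _ ≤ j * (2 * e + A) := Nat.mul_le_mul_left _ (by omega)

end Pool.Agent.Lib.MP_ed661f_ag.Ro
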