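import Pool.Agent.Lib.MP_ed661f_ag.S.Fam.FinW

/-!
# The family of base cases of odd degree, with the numerical data used for the two lines

The same statement as `S.Fam.family_genericW` with four more conclusions on the class: the first two
weights add up to `a`, and the inequalities `2 D0 - 1 ≤ 4 (c 0) ^ 2`, `4 (c 1) ^ 2`, `b ^ 2`.
-/

set_option autoImplicit false

open MvPolynomial

namespace Pool.Agent.Lib.MP_ed661f_ag.Ro

open E R H S S.Fam

/-- the sections through one more point, at the special configuration over the rational numbers -/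
theorem familyO {D0 : ℕ} (hD : 4 ≤ D0) : ∃ (a b : ℕ) (c : Fin 5 → ℕ) (x x' : Fin 5 → Fin 2 → ℚ)
    (w : Fin 2 → ℚ) (f : Fin 4 → MvPolynomial (Fin 2) ℚ), (∀ j, 1 ≤ c j) ∧ a + b = ∑ j, c j ∧
      a * b = ∑ j, c j ^ 2 + D0 ∧ c 0 + c 1 = a ∧ 2 * D0 - 1 ≤ 4 * c 0 ^ 2 ∧
      2 * D0 - 1 ≤ 4 * c 1 ^ 2 ∧ 2 * D0 - 1 ≤ b ^ 2 ∧
      (∀ i, f i ∈ SecK a b c x x' ⊓ LinearMap.ker (evw w)) ∧
      Module.finrank ℚ (SecK a b c x x' ⊓ LinearMap.ker (evw w) :
        Submodule ℚ (MvPolynomial (Fin 2) ℚ)) = D0 ∧ NoRel (2 * D0 - 1) f ∧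
      ∀ (n : ℕ) (H : MvPolynomial (Fin 3) ℚ), H.IsHomogeneous n →
        aeval (fun i : Fin 3 => f i.castSucc) H = 0 → H = 0 := by
  rcases Nat.even_or_odd D0 with ⟨t, ht⟩ | ⟨t, ht⟩
  · -- `e = 1`, `c = t + 1`
    obtain ⟨f, hf, hdim, hrel, h3⟩ := fam_oneW (e := 1) PB_good le_rfl (fun _ => finrank_HH11)
      phi_wB exW1 (by omega) base7 (c := t + 1) (by omega)
    have e1 : 2 * (t + 1) - 1 - 1 = D0 := by omega
    refine ⟨2 * (t + 1), 2 * (t + 1) + 1 - 1, cc (t + 1) 1, PB.x, PB.x', wB, f,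
      cc_pos (by omega), cc_sum (by omega), ?_, ?_, ?_, ?_, ?_, hf, ?_, ?_, h3⟩
    · rw [cc_sq le_rfl (by omega), e1]
    · change (t + 1) + (t + 1) = 2 * (t + 1)
      ring
    · change 2 * D0 - 1 ≤ 4 * (t + 1) ^ 2
      have h5 : 4 * (t + 1) ≤ 4 * (t + 1) ^ 2 := by nlinarith
      omega
    · change 2 * D0 - 1 ≤ 4 * (t + 1) ^ 2
      have h5 : 4 * (t + 1) ≤ 4 * (t + 1) ^ 2 := by nlinarith
      omega
    · have h5 : 4 * (t + 1) ≤ (2 * (t + 1) + 1 - 1) ^ 2 := by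
        rw [Nat.add_sub_cancel]
        nlinarith
      omega
    · have h4 : Module.finrank ℚ (HHw PB wB (t + 1) 1) = D0 := by omega
      exact h4
    · have e2 : 7 + 4 * (t + 1 - 3) = 2 * D0 - 1 := by omega
      rw [e2] at hrel
      exact hrel
  · -- `e = 0`, `c = t + 1`
    obtain ⟨f, hf, hdim, hrel, h3⟩ := fam_oneW (e := 0) PB_good (by omega)
      (fun h => absurd h (by omega)) phi_wB
      (exists_not_zero PB_good (by omega) phi_wB exW0 (by omega)) (by omega) base9 (c := t + 1)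
      (by omega)
    have e1 : 2 * (t + 1) - 1 - 0 = D0 := by omega
    refine ⟨2 * (t + 1), 2 * (t + 1) + 1 - 0, cc (t + 1) 0, PB.x, PB.x', wB, f,
      cc_pos (by omega), cc_sum (by omega), ?_, ?_, ?_, ?_, ?_, hf, ?_, ?_, h3⟩
    · rw [cc_sq (by omega) (by omega), e1]
    · change (t + 1) + (t + 1) = 2 * (t + 1)
      ring
    · change 2 * D0 - 1 ≤ 4 * (t + 1) ^ 2
      have h5 : 4 * (t + 1) ≤ 4 * (t + 1) ^ 2 := by nlinarith
      omega
    · change 2 * D0 - 1 ≤ 4 * (t + 1) ^ 2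
      have h5 : 4 * (t + 1) ≤ 4 * (t + 1) ^ 2 := by nlinarith
      omega
    · have h5 : 4 * (t + 1) + 1 ≤ (2 * (t + 1) + 1 - 0) ^ 2 := by
        rw [Nat.sub_zero]
        nlinarith
      omega
    · have h4 : Module.finrank ℚ (HHw PB wB (t + 1) 0) = D0 := by omega
      exact h4
    · have e2 : 9 + 4 * (t + 1 - 3) = 2 * D0 - 1 := by omega
      rw [e2] at hrel
      exact hrel

/-- four sections at generic centres, with one more base point -/
theorem family_genericW' {D0 : ℕ} (hD : 4 ≤ D0) : ∃ (a b : ℕ) (c : Fin 5 → ℕ), (∀ j, 1 ≤ c j) ∧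
    a + b = ∑ j, c j ∧ a * b = ∑ j, c j ^ 2 + D0 ∧ c 0 + c 1 = a ∧ 2 * D0 - 1 ≤ 4 * c 0 ^ 2 ∧
    2 * D0 - 1 ≤ 4 * c 1 ^ 2 ∧ 2 * D0 - 1 ≤ b ^ 2 ∧
      ∀ (x x' : Fin 5 → Pt) (w : Pt),
        AlgebraicIndependent ℚ (fun q : ((Fin 5 ⊕ Fin 5) ⊕ Fin 1) × Fin 2 =>
          wpp x x' w q.1 q.2) →
        ∃ F : Fin 4 → Pol, (∀ i, F i ∈ SecW a b c 1 x x' w 1) ∧
          (∀ m < 2 * D0 - 1, ∀ H : MvPolynomial (Fin 4) ℂ, H.IsHomogeneous m →
            aeval F H = 0 → H = 0) ∧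
          ∀ (n : ℕ) (H : MvPolynomial (Fin 3) ℂ), H.IsHomogeneous n →
            aeval (fun i : Fin 3 => F i.castSucc) H = 0 → H = 0 := by
  obtain ⟨a, b, c, p, p', w0, f, hc, hab, hD0, n1, n2, n3, n4, hf, hdim, hrel, h3⟩ := familyO hD
  refine ⟨a, b, c, hc, hab, hD0, n1, n2, n3, n4, fun x x' w hz => ?_⟩
  obtain ⟨F, hF1, hF2, hF3⟩ := exists_generic_sectionsW (R₀ := ℚ) (k := ℚ) (RingHom.id ℚ)
    Function.surjective_id (a := a) (b := b) (m := 2 * D0 - 2) (c := c) (p := p) (p' := p')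
    (w0 := w0)
    (by
      rw [← SecK_evw_eq_SecG, hdim]
      have e1 : ∑ j, c j * (c j + 1) = ∑ j, c j ^ 2 + ∑ j, c j := by
        rw [← Finset.sum_add_distrib]
        exact Finset.sum_congr rfl fun j _ => by ring
      have e2 : (a + 1) * (b + 1) = a * b + (a + b) + 1 := by ring
      rw [e1, e2, hab, hD0]
      omega) (f := f)
    (fun i => by
      rw [← SecK_evw_eq_SecG]
      exact hf i)
    (fun H hH hz => hrel (2 * D0 - 2) (by omega) H hH hz) h3 hz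
  exact ⟨F, hF1, fun m hm H hH hz => hF2 m (by omega) H hH hz, hF3⟩

end Pool.Agent.Lib.MP_ed661f_ag.Ro
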