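import Mathlib.NumberTheory.SumFourSquares
import Mathlib.Tactic

/-!
Every natural number is four times a square plus three squares (from Lagrange's theorem on four
squares alone).
-/

namespace Pool.Agent.Lib.MP_ed661f_ag.Ro

/-- Every natural number is of the form 4 j ^ 2 + a ^ 2 + b ^ 2 + c ^ 2. -/
theorem exists_even_four (n : ℕ) : ∃ j a b c : ℕ, 4 * j ^ 2 + a ^ 2 + b ^ 2 + c ^ 2 = n := by
  by_cases h4 : 4 ∣ n
  · obtain ⟨m, rfl⟩ := h4
    obtain ⟨a, b, c, d, h⟩ := Nat.sum_four_squares m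
    exact ⟨a, 2 * b, 2 * c, 2 * d, by rw [← h]; ring⟩
  · obtain ⟨a, b, c, d, h⟩ := Nat.sum_four_squares n
    rcases Nat.even_or_odd' a with ⟨a', rfl | rfl⟩
    · exact ⟨a', b, c, d, by rw [← h]; ring⟩
    rcases Nat.even_or_odd' b with ⟨b', rfl | rfl⟩
    · exact ⟨b', 2 * a' + 1, c, d, by rw [← h]; ring⟩
    rcases Nat.even_or_odd' c with ⟨c', rfl | rfl⟩
    · exact ⟨c', 2 * a' + 1, 2 * b' + 1, d, by rw [← h]; ring⟩
    rcases Nat.even_or_odd' d with ⟨d', rfl | rfl⟩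
    · exact ⟨d', 2 * a' + 1, 2 * b' + 1, 2 * c' + 1, by rw [← h]; ring⟩
    exact absurd ⟨a' ^ 2 + a' + (b' ^ 2 + b') + (c' ^ 2 + c') + (d' ^ 2 + d') + 1,
      by rw [← h]; ring⟩ h4

end Pool.Agent.Lib.MP_ed661f_ag.Ro
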