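import Pool.Agent.Lib.MP_ed661f_ag.R.Nef
import Pool.Agent.Lib.MP_ed661f_ag.Ro.Per

/-!
The round cone of nef classes at the special configuration with the two lines `v = 5`, `v = 1/5`.
-/

set_option autoImplicit false

open MvPolynomial

namespace Pool.Agent.Lib.MP_ed661f_ag.Ro

open Pool.Agent.Lib.MP_ed661f_ag.E Pool.Agent.Lib.MP_ed661f_ag.R

/-- the nef inequality for one polynomial -/
def IneqO (a b : ℝ) (c : Fin 5 → ℝ) (r : Fin 4 → ℝ) (F : Pol) : Prop :=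
  ∑ j, c j * (mlt (PO j) F + mlt (PI j) F) + ∑ i, r i * mlt (Y0 i) F ≤
    a * F.degreeOf 1 + b * F.degreeOf 0

theorem ineqO_mul {a b : ℝ} {c : Fin 5 → ℝ} {r : Fin 4 → ℝ} {F G : Pol} (hF : F ≠ 0) (hG : G ≠ 0)
    (h1 : IneqO a b c r F) (h2 : IneqO a b c r G) : IneqO a b c r (F * G) := by
  unfold IneqO at *
  have e1 : ∑ j, c j * (((mlt (PO j) (F * G) : ℕ) : ℝ) + mlt (PI j) (F * G)) =
      ∑ j, c j * ((mlt (PO j) F : ℝ) + mlt (PI j) F) +
      ∑ j, c j * ((mlt (PO j) G : ℝ) + mlt (PI j) G) := by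
    rw [← Finset.sum_add_distrib]
    refine Finset.sum_congr rfl fun j _ => ?_
    rw [mlt_mul hF hG, mlt_mul hF hG]
    push_cast
    ring
  have e2 : ∑ i, r i * ((mlt (Y0 i) (F * G) : ℕ) : ℝ) = ∑ i, r i * (mlt (Y0 i) F : ℝ) +
      ∑ i, r i * (mlt (Y0 i) G : ℝ) := by
    rw [← Finset.sum_add_distrib]
    refine Finset.sum_congr rfl fun j _ => ?_
    rw [mlt_mul hF hG]
    push_cast
    ring
  rw [e1, e2, degreeOf_mul_eq hF hG, degreeOf_mul_eq hF hG]
  push_cast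
  linarith

theorem ineqO_unit {a b : ℝ} {c : Fin 5 → ℝ} {r : Fin 4 → ℝ} {F : Pol} (hF : IsUnit F)
    (ha : 0 ≤ a) (hb : 0 ≤ b) : IneqO a b c r F := by
  unfold IneqO
  have h1 : ∀ p, mlt p F = 0 := fun p => mlt_unit hF
  simp only [h1]
  have : 0 ≤ a * (F.degreeOf 1 : ℝ) + b * F.degreeOf 0 := by positivity
  simpa using this

theorem ineqO_assoc {a b : ℝ} {c : Fin 5 → ℝ} {r : Fin 4 → ℝ} {F G : Pol} (hG : G ≠ 0)
    (h : Associated F G) (ha : 0 ≤ a) (hb : 0 ≤ b) (h2 : IneqO a b c r G) : IneqO a b c r F := by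
  obtain ⟨u, hu⟩ := h.symm
  rw [← hu]
  exact ineqO_mul hG u.ne_zero h2 (ineqO_unit u.isUnit ha hb)

theorem tor_PI (j : Fin 5) : Tor (PI j) := (tor_PO j).inv

theorem ineqO_X {a b : ℝ} {c : Fin 5 → ℝ} {r : Fin 4 → ℝ} (ha : 0 ≤ a) (hb : 0 ≤ b) (i : Fin 2) :
    IneqO a b c r (X i) := by
  have h0 : ∀ p : Pt, Tor p → mlt p (X i) = 0 := by
    intro p hp
    by_contra h
    have h1 := (mlt_pos_iff (p := p) (X_ne_zero i)).1 (by omega)
    rw [eval_X] at h1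
    fin_cases i
    · exact hp.1 h1
    · exact hp.2 h1
  unfold IneqO
  simp only [h0 _ (tor_PO _), h0 _ (tor_PI _), h0 _ (tor_Y0 _)]
  have : 0 ≤ a * ((X i : Pol).degreeOf 1 : ℝ) + b * (X i : Pol).degreeOf 0 := by positivity
  simpa using this

/-- the inequality for irreducible invariant curves -/
theorem ineqO_orb {a b : ℝ} {c : Fin 5 → ℝ} {r : Fin 4 → ℝ} (ha : 0 ≤ a) (hb : 0 ≤ b)
    (hR : c 0 + c 1 ≤ a) (hab : a + b = ∑ j, c j) (hq : ∑ i, r i ^ 2 ≤ 2 * (a * b - ∑ j, c j ^ 2))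
    {Z F : Pol} {s : ℤ} (hs : s = 1 ∨ s = -1) (hZF : Orb Z F)
    (hZ : Z ∈ S (Z.degreeOf 0) (Z.degreeOf 1) (s : ℂ)) (h0 : Z ≠ 0) (hrel : IsRelPrime Z Q1)
    (hnc : ¬ (Z.degreeOf 0 = 0 ∧ Z.degreeOf 1 = 0)) :
    2 * ∑ j, c j * (mlt (PO j) Z : ℝ) + ∑ i, r i * (mlt (Y0 i) Z : ℝ) ≤
      a * Z.degreeOf 1 + b * Z.degreeOf 0 := by
  classical
  have hadj := adj hs hZF hZ (Finset.univ.image PO) (by
    intro p hp
    obtain ⟨j, -, rfl⟩ := Finset.mem_image.1 hp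
    exact tor_PO j) (by
    intro p hp q hq
    obtain ⟨i, -, rfl⟩ := Finset.mem_image.1 hp
    obtain ⟨j, -, rfl⟩ := Finset.mem_image.1 hq
    exact inv_PO_ne i j)
  rw [Finset.sum_image (fun i _ j _ h => PO_injective h),
    Finset.sum_image (fun i _ j _ h => PO_injective h)] at hadj
  have hs' : (s : ℂ) = 1 ∨ (s : ℂ) = -1 := by
    rcases hs with rfl | rfl <;> simp
  obtain ⟨hp1, hp2⟩ := Ro.period hs' h0 hZ hrel
  rcases Nat.lt_or_ge (∑ j, mlt (PO j) Z) (Z.degreeOf 0 + Z.degreeOf 1) with hlt | hge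
  swap
  · -- the orbit of the line `v = 5`
    have hsum := le_antisymm hp1 hge
    obtain ⟨hA, h01, h2, h3, h4⟩ := hp2 hsum
    rw [Fin.sum_univ_five, h2, h3, h4, ← h01, hA] at hsum
    obtain ⟨m, hm⟩ : ∃ m, m = mlt (PO 0) Z := ⟨_, rfl⟩
    rw [← hm] at hsum h01
    have hB : Z.degreeOf 1 = 2 * m := by omega
    have hm1 : 1 ≤ m := by
      by_contra hcon
      exact hnc ⟨hA, by omega⟩
    have hn : ∀ i, mlt (Y0 i) Z = 0 := by
      have e1 : (∑ j, (mlt (PO j) Z : ℤ) ^ 2) = 2 * (m : ℤ) ^ 2 := by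
        rw [Fin.sum_univ_five, h2, h3, h4, ← h01, ← hm]
        push_cast
        ring
      have e2 : (∑ j, (mlt (PO j) Z : ℤ)) = 2 * (m : ℤ) := by
        rw [Fin.sum_univ_five, h2, h3, h4, ← h01, ← hm]
        push_cast
        ring
      rw [e1, e2, hA, hB] at hadj
      push_cast at hadj
      have e3 : ∑ i, (mlt (Y0 i) Z : ℤ) ^ 2 ≤ 0 := by nlinarith
      intro i
      have e4 : (mlt (Y0 i) Z : ℤ) ^ 2 ≤ ∑ i, (mlt (Y0 i) Z : ℤ) ^ 2 :=
        Finset.single_le_sum (f := fun i => (mlt (Y0 i) Z : ℤ) ^ 2)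
          (fun i _ => sq_nonneg _) (Finset.mem_univ i)
      have e5 : (mlt (Y0 i) Z : ℤ) ^ 2 = 0 := le_antisymm (e4.trans e3) (sq_nonneg _)
      have e6 := pow_eq_zero_iff (two_ne_zero) |>.1 e5
      exact_mod_cast e6
    have e7 : ∑ j, c j * (mlt (PO j) Z : ℝ) = (c 0 + c 1) * m := by
      rw [Fin.sum_univ_five, h2, h3, h4, ← h01, ← hm]
      push_cast
      ring
    have e8 : ∑ i, r i * (mlt (Y0 i) Z : ℝ) = 0 := by
      refine Finset.sum_eq_zero fun i _ => ?_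
      rw [hn i]
      simp
    rw [e7, e8, hA, hB]
    push_cast
    have e9 : (c 0 + c 1) * (m : ℝ) ≤ a * m := mul_le_mul_of_nonneg_right hR (Nat.cast_nonneg _)
    linarith
  have hk : ∑ j, mlt (PO j) Z + 1 ≤ Z.degreeOf 0 + Z.degreeOf 1 := hlt
  refine lorentz a b c r ha hb hab hq (Z.degreeOf 0) (Z.degreeOf 1) (fun j => mlt (PO j) Z)
    (fun i => mlt (Y0 i) Z) (by positivity) (by positivity) ?_ ?_
  · have : ((∑ j, mlt (PO j) Z : ℕ) : ℝ) + 1 ≤ Z.degreeOf 0 + Z.degreeOf 1 := by exact_mod_cast hk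
    push_cast at this
    linarith
  · have : (((2 * ∑ j, (mlt (PO j) Z : ℤ) ^ 2 + ∑ i, (mlt (Y0 i) Z : ℤ) ^ 2 +
        2 * ((Z.degreeOf 0 : ℤ) + Z.degreeOf 1) : ℤ)) : ℝ) ≤
        ((2 * (Z.degreeOf 0 : ℤ) * Z.degreeOf 1 + 2 * ∑ j, (mlt (PO j) Z : ℤ) + 4 : ℤ) : ℝ) := by
      exact_mod_cast hadj
    push_cast at this
    linarith

theorem ineqO_irreducible {a b : ℝ} {c : Fin 5 → ℝ} {r : Fin 4 → ℝ} (ha : 0 ≤ a) (hb : 0 ≤ b)
    (hR : c 0 + c 1 ≤ a) (hab : a + b = ∑ j, c j) (hq : ∑ i, r i ^ 2 ≤ 2 * (a * b - ∑ j, c j ^ 2))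
    {F : Pol} (hF : Irreducible F) : IneqO a b c r F := by
  classical
  have hF0 := hF.ne_zero
  by_cases hX0 : Associated F (X 0)
  · exact ineqO_assoc (X_ne_zero _) hX0 ha hb (ineqO_X ha hb 0)
  by_cases hX1 : Associated F (X 1)
  · exact ineqO_assoc (X_ne_zero _) hX1 ha hb (ineqO_X ha hb 1)
  have hnX := noX_of_irreducible hF hX0 hX1
  have hQ0 : Q1 ≠ 0 := irreducible_Q1.ne_zero
  have hQbox : Q1 ∈ Box 1 1 := mem_Box.2 ⟨(degreeOf_Q1 0).le, (degreeOf_Q1 1).le⟩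
  have hQ2box : Q2 ∈ Box 1 1 := by
    rw [← rev_Q1]
    exact rev_mem _
  have hrQ2 : rev 1 1 Q2 = Q1 := by
    rw [← rev_Q1]
    exact rev_rev hQbox
  have hQ20 : Q2 ≠ 0 := by
    rw [← rev_Q1]
    exact rev_ne_zero hQbox hQ0
  obtain ⟨hm1, hm2, hm3⟩ := Ro.mlt_Q1
  -- the curves `Q1` and `Q2`
  have hdQ2 : ∀ i, Q2.degreeOf i = 1 := by
    intro i
    have := degreeOf_rev noX_Q1 i
    rwa [degreeOf_Q1, degreeOf_Q1, rev_Q1, degreeOf_Q1] at this
  have hmQ2 : ∀ p, Tor p → mlt (inv p) Q2 = mlt p Q1 := by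
    intro p hp
    rw [← rev_Q1]
    exact mlt_rev hQbox hQ0 hp
  have hIQ1 : IneqO a b c r Q1 := by
    unfold IneqO
    simp only [hm1, hm2, hm3, degreeOf_Q1]
    push_cast
    simp only [add_zero, mul_one, mul_zero, Finset.sum_const_zero]
    linarith
  have hIQ2 : IneqO a b c r Q2 := by
    have g1 : ∀ j, mlt (PO j) Q2 = 0 := by
      intro j
      have := hmQ2 (PI j) (tor_PI j)
      rwa [PI, inv_inv', ← PI, hm2] at this
    have g2 : ∀ j, mlt (PI j) Q2 = 1 := by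
      intro j
      have := hmQ2 (PO j) (tor_PO j)
      rwa [hm1] at this
    have g3 : ∀ i, mlt (Y0 i) Q2 = 0 := by
      intro i
      have := hmQ2 (Y0 i) (tor_Y0 i)
      rwa [inv_Y0, hm3] at this
    unfold IneqO
    simp only [g1, g2, g3, hdQ2]
    push_cast
    simp only [zero_add, mul_one, mul_zero, Finset.sum_const_zero, add_zero]
    linarith
  by_cases hQ : Associated F Q1
  · exact ineqO_assoc hQ0 hQ ha hb hIQ1
  by_cases hQ' : Associated F Q2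
  · exact ineqO_assoc hQ20 hQ' ha hb hIQ2
  -- the general case
  set e0 := F.degreeOf 0 with he0
  set e1 := F.degreeOf 1 with he1
  set F' := rev e0 e1 F with hF'
  have hbox : F ∈ Box e0 e1 := self_mem_Box F
  have hF'irr : Irreducible F' := irreducible_rev hnX hF
  have hF'0 := hF'irr.ne_zero
  have hF'deg : ∀ i, F'.degreeOf i = F.degreeOf i := fun i => degreeOf_rev hnX i
  have hrr : rev e0 e1 F' = F := rev_rev hbox
  have hnotQ1 : ¬ Associated Q1 F := fun h => hQ h.symm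
  have hnotQ1' : ¬ Associated Q1 F' := by
    rintro ⟨u, hu⟩
    -- the degrees of `F` are `(1,1)`
    have hd : ∀ i, F.degreeOf i = 1 := by
      intro i
      rw [← hF'deg i, ← hu, degreeOf_mul_eq hQ0 u.ne_zero, degreeOf_Q1]
      obtain ⟨v, hv, hv'⟩ := MvPolynomial.isUnit_iff_eq_C_of_isReduced.1 u.isUnit
      rw [hv']
      simp
    obtain ⟨v, hv, hv'⟩ := MvPolynomial.isUnit_iff_eq_C_of_isReduced.1 u.isUnit
    apply hQ'
    have h1 : F = C v * Q2 := by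
      rw [← hrr, ← hu, hv', he0, he1, hd, hd, mul_comm, rev_C_mul, rev_Q1]
    rw [h1]
    exact (associated_isUnit_mul_left_iff (hv.map C)).2 (Associated.refl _)
  have hd1 : ¬ Q1 ∣ F := fun h => hnotQ1 (irreducible_Q1.associated_of_dvd hF h)
  have hd2 : ¬ Q1 ∣ F' := fun h => hnotQ1' (irreducible_Q1.associated_of_dvd hF'irr h)
  by_cases hFF : Associated F F'
  · -- `F` is semi-invariant
    obtain ⟨u, hu⟩ := hFF
    obtain ⟨v, hv, hv'⟩ := MvPolynomial.isUnit_iff_eq_C_of_isReduced.1 u.isUnit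
    have h1 : rev e0 e1 F = C v * F := by
      rw [← hF', ← hu, hv', mul_comm]
    have h2 : C (v * v) * F = F := by
      conv_rhs => rw [← hrr, hF', h1, rev_C_mul, h1, ← mul_assoc, ← C_mul]
    have h3 : v * v = 1 := by
      have : C (v * v) * F = C 1 * F := by rw [h2, C_1, one_mul]
      exact C_injective _ _ (mul_right_cancel₀ hF0 this)
    have h4 : v = 1 ∨ v = -1 := by
      have : (v - 1) * (v + 1) = 0 := by linear_combination h3
      rcases mul_eq_zero.1 this with h | h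
      · left; linear_combination h
      · right; linear_combination h
    obtain ⟨s, hs, hsv⟩ : ∃ s : ℤ, (s = 1 ∨ s = -1) ∧ (s : ℂ) = v := by
      rcases h4 with h | h
      · exact ⟨1, Or.inl rfl, by rw [h]; simp⟩
      · exact ⟨-1, Or.inr rfl, by rw [h]; simp⟩
    have hmem : F ∈ S (F.degreeOf 0) (F.degreeOf 1) (s : ℂ) := by
      rw [mem_S]
      refine ⟨hbox, ?_⟩
      rw [hsv, smul_eq_C_mul]
      exact h1
    have hs0 : (s : ℂ) ≠ 0 := by
      rcases hs with rfl | rfl <;> simp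
    have h5 := ineqO_orb ha hb hR hab hq hs (⟨hF, hnX, Or.inl rfl⟩ : Orb F F) hmem hF0
      ((hF.isRelPrime_iff_not_dvd).2 (fun h =>
        hnotQ1 ((hF.associated_of_dvd irreducible_Q1 h).symm)))
      (not_const_of_irreducible hF)
    unfold IneqO
    have h6 : ∀ j, mlt (PI j) F = mlt (PO j) F := fun j => mlt_semi hmem hF0 hs0 (tor_PO j)
    simp only [h6]
    have h7 : ∑ j, c j * ((mlt (PO j) F : ℝ) + mlt (PO j) F) = 2 * ∑ j, c j * (mlt (PO j) F : ℝ) := by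
      rw [Finset.mul_sum]
      refine Finset.sum_congr rfl fun j _ => ?_
      ring
    rw [h7]
    exact h5
  · -- `Z = F F'`
    set Z := F * F' with hZ
    have hZ0 : Z ≠ 0 := mul_ne_zero hF0 hF'0
    have hZd : ∀ i, Z.degreeOf i = F.degreeOf i + F.degreeOf i := by
      intro i
      rw [hZ, degreeOf_mul_eq hF0 hF'0, hF'deg]
    have hbox' : F' ∈ Box e0 e1 := rev_mem _
    have hmem : Z ∈ S (Z.degreeOf 0) (Z.degreeOf 1) ((1 : ℤ) : ℂ) := by
      rw [mem_S]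
      refine ⟨self_mem_Box Z, ?_⟩
      rw [hZd, hZd, hZ, ← he0, ← he1, rev_mul hbox hbox', hrr, ← hF', Int.cast_one, one_smul,
        mul_comm]
    have hrel : IsRelPrime Z Q1 := by
      rw [isRelPrime_comm, irreducible_Q1.isRelPrime_iff_not_dvd]
      intro h
      rcases irreducible_Q1.prime.dvd_or_dvd h with h | h
      · exact hd1 h
      · exact hd2 h
    have h5 := ineqO_orb ha hb hR hab hq (Or.inl rfl) (⟨hF, hnX, Or.inr ⟨rfl, hFF⟩⟩ : Orb Z F) hmem hZ0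
      hrel (by
        rw [hZd, hZd]
        have := not_const_of_irreducible hF
        omega)
    have hm : ∀ p, Tor p → mlt p Z = mlt p F + mlt (inv p) F := by
      intro p hp
      rw [hZ, mlt_mul hF0 hF'0]
      congr 1
      have := mlt_rev hbox hF0 hp.inv
      rwa [inv_inv'] at this
    unfold IneqO
    rw [hZd, hZd] at h5
    have h6 : ∑ j, c j * ((mlt (PO j) Z : ℕ) : ℝ) = ∑ j, c j * ((mlt (PO j) F : ℝ) + mlt (PI j) F) := by
      refine Finset.sum_congr rfl fun j _ => ?_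
      rw [hm _ (tor_PO j)]
      push_cast
      rfl
    have h7 : ∑ i, r i * ((mlt (Y0 i) Z : ℕ) : ℝ) = 2 * ∑ i, r i * (mlt (Y0 i) F : ℝ) := by
      rw [Finset.mul_sum]
      refine Finset.sum_congr rfl fun i _ => ?_
      rw [hm _ (tor_Y0 i), inv_Y0]
      push_cast
      ring
    rw [h6, h7] at h5
    push_cast at h5
    linarith

theorem nefO_special (a b : ℝ) (c : Fin 5 → ℝ) (r : Fin 4 → ℝ) (ha : 0 ≤ a) (hb : 0 ≤ b)
    (hR : c 0 + c 1 ≤ a) (hab : a + b = ∑ j, c j) (hq : ∑ i, r i ^ 2 ≤ 2 * (a * b - ∑ j, c j ^ 2))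
    {F : Pol} (hF : F ≠ 0) :
    ∑ j, c j * (mlt (PO j) F + mlt (PI j) F) + ∑ i, r i * mlt (Y0 i) F ≤
      a * F.degreeOf 1 + b * F.degreeOf 0 := by
  have key : IneqO a b c r F := by
    induction F using UniqueFactorizationMonoid.induction_on_prime with
    | h₁ => exact absurd rfl hF
    | h₂ x hx => exact ineqO_unit hx ha hb
    | h₃ x p hx hp ih =>
      exact ineqO_mul hp.ne_zero hx (ineqO_irreducible ha hb hR hab hq hp.irreducible) (ih hx)
  exact key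

end Pool.Agent.Lib.MP_ed661f_ag.Ro
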