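import Pool.Agent.Lib.MP_ed661f_ag.Ro.Spec
import Pool.Agent.Lib.MP_ed661f_ag.Ro.Nef
import Pool.Agent.Lib.MP_ed661f_ag.R.GenW3

/-!
The nef inequality for generic points with one more weighted point, `n = 4 j ^ 2` plus a sum of
three squares.
-/

set_option autoImplicit false

open MvPolynomial

namespace Pool.Agent.Lib.MP_ed661f_ag.Ro

open Pool.Agent.Lib.MP_ed661f_ag.E Pool.Agent.Lib.MP_ed661f_ag.R

/-! ### multiplicities and degrees of the lines -/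

theorem line_ne (v : ℂ) : (X 1 - C v : Pol) ≠ 0 := by
  intro h
  have := congrArg (eval ![0, v + 1]) h
  simp at this

theorem mlt_line (v : ℂ) (p : Pt) : mlt p (X 1 - C v : Pol) = if p 1 = v then 1 else 0 := by
  split_ifs with h
  · refine le_antisymm ?_ ((mlt_pos_iff (line_ne v)).2 (by simp [h]))
    by_contra hcon
    have h1 := (le_mlt_iff (p := p) (line_ne v) 2).1 (by omega) (Finsupp.single 1 1) (by simp)
    rw [← h, Bz.tay_X_sub_C] at h1
    simp at h1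
  · by_contra hcon
    have h1 := (mlt_pos_iff (p := p) (line_ne v)).1 (by omega)
    simp only [map_sub, eval_X, eval_C] at h1
    exact h (sub_eq_zero.1 h1)

theorem mlt_line_pow (v : ℂ) (p : Pt) (e : ℕ) :
    mlt p ((X 1 - C v : Pol) ^ e) = if p 1 = v then e else 0 := by
  induction e with
  | zero =>
    rw [pow_zero, mlt_unit isUnit_one]
    simp
  | succ e ih =>
    rw [pow_succ, mlt_mul (pow_ne_zero _ (line_ne v)) (line_ne v), ih, mlt_line]
    split_ifs <;> rfl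

theorem degreeOf_line_pow (v : ℂ) (e : ℕ) :
    ((X 1 - C v : Pol) ^ e).degreeOf 1 = e ∧ ((X 1 - C v : Pol) ^ e).degreeOf 0 = 0 := by
  have h0 : ((X 1 - C v : Pol)).degreeOf 0 = 0 := by
    refine Nat.le_zero.1 ((degreeOf_sub_le 0 _ _).trans ?_)
    rw [degreeOf_X, degreeOf_C]
    simp
  have h1 : ((X 1 - C v : Pol)).degreeOf 1 = 1 := by
    refine le_antisymm ((degreeOf_sub_le 1 _ _).trans ?_) ?_
    · rw [degreeOf_X, degreeOf_C]
      simp
    · have h2 : (Finsupp.single 1 1 : Fin 2 →₀ ℕ) ∈ (X 1 - C v : Pol).support := by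
        have h5 : (0 : Fin 2 →₀ ℕ) ≠ Finsupp.single 1 1 := by
          intro h
          have := DFunLike.congr_fun h 1
          simp at this
        rw [mem_support_iff, coeff_sub, coeff_C, if_neg h5, coeff_X]
        simp
      have h3 := monomial_le_degreeOf 1 h2
      simpa using h3
  constructor
  · rw [degreeOf_pow_eq _ _ _ (line_ne v), h1, mul_one]
  · rw [degreeOf_pow_eq _ _ _ (line_ne v), h0, mul_zero]

/-- the ordinates of the other points -/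
theorem ord_ne : (∀ j : Fin 5, 2 ≤ (j : ℕ) → PO j 1 ≠ 5 ∧ PO j 1 ≠ 1 / 5 ∧ PI j 1 ≠ 5 ∧
    PI j 1 ≠ 1 / 5) ∧ ∀ i : Fin 4, Y0 i 1 ≠ 5 ∧ Y0 i 1 ≠ 1 / 5 := by
  constructor
  · intro j hj
    have h2 : ∀ t : ℂ, TO j = t → PO j 1 = (2 * t - 1) / (t - 2) ∧
        PI j 1 = ((2 * t - 1) / (t - 2))⁻¹ := by
      rintro t rfl
      exact ⟨rfl, rfl⟩
    fin_cases j
    · simp at hj
    · simp at hj
    · obtain ⟨e1, e2⟩ := h2 5 rfl
      rw [e1, e2]
      norm_num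
    · obtain ⟨e1, e2⟩ := h2 7 rfl
      rw [e1, e2]
      norm_num
    · obtain ⟨e1, e2⟩ := h2 11 rfl
      rw [e1, e2]
      norm_num
  · intro i
    fin_cases i <;> norm_num [Y0]

/-! ### the inequality -/

/-- the inequality at the special configuration, for a product with the two lines -/
theorem nef_split (a b s : ℝ) (c : Fin 5 → ℝ) (ρ : Fin 4 → ℝ) (hs : 0 ≤ s)
    (ha : 0 ≤ a) (hR : a = c 0 + c 1) (hab : a + b = ∑ j, c j)
    (hq : ∑ i, ρ i ^ 2 + 4 * s ^ 2 ≤ 2 * (a * b - ∑ j, c j ^ 2)) (hsb : 2 * s ≤ b)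
    {e e' : ℕ} {G P : Pol} (hP : P ≠ 0)
    (hGP : G = (X 1 - C (5 : ℂ)) ^ e * ((X 1 - C (1 / 5 : ℂ)) ^ e' * P)) :
    (c 0 - s) * (mlt (PO 0) G + mlt (PI 0) G) + (c 1 - s) * (mlt (PO 1) G + mlt (PI 1) G) +
      (c 2 * (mlt (PO 2) G + mlt (PI 2) G) + c 3 * (mlt (PO 3) G + mlt (PI 3) G) +
      c 4 * (mlt (PO 4) G + mlt (PI 4) G)) + ∑ i, ρ i * mlt (Y0 i) G + 2 * s * (e + e') ≤
      a * G.degreeOf 1 + (b - 2 * s) * G.degreeOf 0 := by
  have hm : ∀ p : Pt, (mlt p G : ℝ) = (if p 1 = 5 then (e : ℝ) else 0) +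
      (if p 1 = 1 / 5 then (e' : ℝ) else 0) + mlt p P := by
    intro p
    rw [hGP, mlt_mul (pow_ne_zero _ (line_ne _)) (mul_ne_zero (pow_ne_zero _ (line_ne _)) hP),
      mlt_mul (pow_ne_zero _ (line_ne _)) hP, mlt_line_pow, mlt_line_pow]
    push_cast
    ring
  have hd : ∀ i : Fin 2, G.degreeOf i = ((X 1 - C (5 : ℂ) : Pol) ^ e).degreeOf i +
      (((X 1 - C (1 / 5 : ℂ) : Pol) ^ e').degreeOf i + P.degreeOf i) := by
    intro i
    rw [hGP, degreeOf_mul_eq (pow_ne_zero _ (line_ne _))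
      (mul_ne_zero (pow_ne_zero _ (line_ne _)) hP),
      degreeOf_mul_eq (pow_ne_zero _ (line_ne _)) hP]
  have hd1 : (G.degreeOf 1 : ℝ) = e + e' + P.degreeOf 1 := by
    rw [hd 1, (degreeOf_line_pow _ _).1, (degreeOf_line_pow _ _).1]
    push_cast
    ring
  have hd0 : (G.degreeOf 0 : ℝ) = P.degreeOf 0 := by
    rw [hd 0, (degreeOf_line_pow _ _).2, (degreeOf_line_pow _ _).2]
    push_cast
    ring
  obtain ⟨ho, hy⟩ := ord_ne
  have n51 : (5 : ℂ) ≠ 1 / 5 := by norm_num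
  have m0 : (mlt (PO 0) G : ℝ) = e + mlt (PO 0) P := by
    have h1 : PO 0 1 = 5 := by rw [PO0]; rfl
    rw [hm, h1, if_pos rfl, if_neg n51, add_zero]
  have m1 : (mlt (PO 1) G : ℝ) = e' + mlt (PO 1) P := by
    have h1 : PO 1 1 = 1 / 5 := by rw [PO1]; rfl
    rw [hm, h1, if_pos rfl, if_neg n51.symm, zero_add]
  have m0' : (mlt (PI 0) G : ℝ) = e' + mlt (PI 0) P := by
    have h1 : PI 0 1 = 1 / 5 := by rw [PI0]; rfl
    rw [hm, h1, if_pos rfl, if_neg n51.symm, zero_add]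
  have m1' : (mlt (PI 1) G : ℝ) = e + mlt (PI 1) P := by
    have h1 : PI 1 1 = 5 := by rw [PI1]; rfl
    rw [hm, h1, if_pos rfl, if_neg n51, add_zero]
  have mo : ∀ j : Fin 5, 2 ≤ (j : ℕ) → (mlt (PO j) G : ℝ) = mlt (PO j) P ∧
      (mlt (PI j) G : ℝ) = mlt (PI j) P := by
    intro j hj
    obtain ⟨h1, h2, h3, h4⟩ := ho j hj
    constructor
    · rw [hm, if_neg h1, if_neg h2, add_zero, zero_add]
    · rw [hm, if_neg h3, if_neg h4, add_zero, zero_add]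
  have mn : ∀ i, (mlt (Y0 i) G : ℝ) = mlt (Y0 i) P := by
    intro i
    rw [hm, if_neg (hy i).1, if_neg (hy i).2, add_zero, zero_add]
  have key := nefO_special a (b - 2 * s) ![c 0 - s, c 1 - s, c 2, c 3, c 4] ρ ha (by linarith)
    (by
      simp only [Matrix.cons_val_zero, Matrix.cons_val_one]
      linarith)
    (by
      rw [Fin.sum_univ_five] at hab ⊢
      simp only [Matrix.cons_val_zero, Matrix.cons_val_one, Matrix.cons_val]
      linarith)
    (by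
      rw [Fin.sum_univ_five] at hq ⊢
      simp only [Matrix.cons_val_zero, Matrix.cons_val_one, Matrix.cons_val]
      rw [hR] at hq ⊢
      nlinarith) hP
  rw [Fin.sum_univ_five] at key
  simp only [Matrix.cons_val_zero, Matrix.cons_val_one, Matrix.cons_val] at key
  rw [m0, m1, m0', m1', (mo 2 (by decide)).1, (mo 2 (by decide)).2, (mo 3 (by decide)).1,
    (mo 3 (by decide)).2, (mo 4 (by decide)).1, (mo 4 (by decide)).2, hd0, hd1]
  simp_rw [mn]
  rw [hR] at key ⊢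
  nlinarith

/-- the nef inequality at `n + 1` generic points: the weight `β` at `y 0` and the weight `r` at the
other points -/
theorem nefO_generic {n j k0 k1 k2 : ℕ} (hn : 4 * j ^ 2 + k0 ^ 2 + k1 ^ 2 + k2 ^ 2 = n)
    {x x' : Fin 5 → Pt} {y : Fin (n + 1) → Pt}
    (hz : Generic (Sum.elim x (Sum.elim x' y)))
    (a b : ℝ) (c : Fin 5 → ℝ) (r β : ℝ) (ha : 0 ≤ a)
    (hr : 0 ≤ r) (hβ : 0 ≤ β) (hc : ∀ j, 0 ≤ c j) (hR : a = c 0 + c 1)
    (hab : a + b = ∑ j, c j) (hq : n * r ^ 2 + β ^ 2 ≤ 2 * (a * b - ∑ j, c j ^ 2))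
    (hs0 : j * r ≤ c 0) (hs1 : j * r ≤ c 1) (hsb : 2 * (j * r) ≤ b)
    {F : Pol} (hF : F ≠ 0) :
    ∑ j, c j * (mlt (x j) F + mlt (x' j) F) + β * (mlt (y 0) F : ℝ) +
      r * ∑ i : Fin n, (mlt (y i.succ) F : ℝ) ≤ a * F.degreeOf 1 + b * F.degreeOf 0 := by
  classical
  set k : Fin 4 → ℕ := ![k0, k1, k2, 1] with hk
  have hk3 : k 3 = 1 := rfl
  have hcard : Fintype.card ((Fin 2 × (Fin 2 × (Fin j × Fin j))) ⊕
      (i : Fin 4) × (Fin (k i) × Fin (k i))) = Fintype.card (Fin (n + 1)) := by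
    rw [Fintype.card_sum, Fintype.card_sigma]
    simp only [Fintype.card_prod, Fintype.card_fin]
    rw [← hn, Fin.sum_univ_four]
    simp [hk]
    ring
  let e4 := Fintype.equivOfCardEq hcard
  let o3 : (i : Fin 4) × (Fin (k i) × Fin (k i)) := ⟨3, (⟨0, by rw [hk3]; exact one_pos⟩,
    ⟨0, by rw [hk3]; exact one_pos⟩)⟩
  let o : (Fin 2 × (Fin 2 × (Fin j × Fin j))) ⊕ (i : Fin 4) × (Fin (k i) × Fin (k i)) :=
    Sum.inr o3
  let e := e4.trans (Equiv.swap (e4 o) 0)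
  have heo : e o = 0 := by
    change Equiv.swap (e4 o) 0 (e4 o) = 0
    exact Equiv.swap_apply_left _ _
  let f : IndO j k → Fin 5 ⊕ (Fin 5 ⊕ Fin (n + 1)) := Sum.map id (Sum.map id e)
  have hf : Function.Injective f :=
    Sum.map_injective.2 ⟨Function.injective_id, Sum.map_injective.2
      ⟨Function.injective_id, e.injective⟩⟩
  obtain ⟨ε, ε', G, P, hG0, hP0, hGP, hGd, hG1, hG2, hG3, hG4, hG5⟩ :=
    specialiseO j k (hz.comp f hf) hF
  set ρ : Fin 4 → ℝ := ![r, r, r, β] with hρ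
  have hρ0 : ∀ i, 0 ≤ ρ i := by
    intro i
    fin_cases i
    · exact hr
    · exact hr
    · exact hr
    · exact hβ
  set W : Fin (n + 1) → ℝ := Fin.cons β (fun _ => r) with hW
  have hWr : ∀ q, q ≠ o → W (e q) = r := by
    intro q hq'
    have h2 : e q ≠ 0 := by
      rw [← heo]
      intro h
      exact hq' (e.injective h)
    obtain ⟨i, hi⟩ := Fin.exists_succ_eq.2 h2
    rw [← hi]
    rfl
  have hWe : ∀ (i : Fin 4) (x : Fin (k i) × Fin (k i)), W (e (Sum.inr ⟨i, x⟩)) = ρ i := by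
    intro i x
    by_cases hi : i = 3
    · subst hi
      have h2 : (Sum.inr ⟨3, x⟩ : (Fin 2 × (Fin 2 × (Fin j × Fin j))) ⊕
          (i : Fin 4) × (Fin (k i) × Fin (k i))) = o := by
        have hs : Subsingleton (Fin (k 3)) := by
          rw [hk3]
          infer_instance
        have : x = (⟨0, by rw [hk3]; exact one_pos⟩, ⟨0, by rw [hk3]; exact one_pos⟩) :=
          Prod.ext (Subsingleton.elim _ _) (Subsingleton.elim _ _)
        rw [this]
      rw [h2, heo]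
      rfl
    · rw [hWr _ (by
        intro h
        exact hi (congrArg Sigma.fst (Sum.inr_injective h)))]
      fin_cases i
      · rfl
      · rfl
      · rfl
      · exact absurd rfl hi
  have hy : β * (mlt (y 0) F : ℝ) + r * ∑ i : Fin n, (mlt (y i.succ) F : ℝ) =
      r * (∑ q : Fin 2 × (Fin j × Fin j), (mlt (y (e (Sum.inl (0, q)))) F : ℝ)) +
      r * (∑ q : Fin 2 × (Fin j × Fin j), (mlt (y (e (Sum.inl (1, q)))) F : ℝ)) +
      ∑ i, ρ i * ∑ x : Fin (k i) × Fin (k i), (mlt (y (e (Sum.inr ⟨i, x⟩))) F : ℝ) := by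
    have h2 : β * (mlt (y 0) F : ℝ) + r * ∑ i : Fin n, (mlt (y i.succ) F : ℝ) =
        ∑ j : Fin (n + 1), W j * (mlt (y j) F : ℝ) := by
      rw [Fin.sum_univ_succ, Finset.mul_sum]
      rfl
    rw [h2, ← Equiv.sum_comp e, Fintype.sum_sum_type, Fintype.sum_sigma, Fintype.sum_prod_type,
      Fin.sum_univ_two]
    congr 1
    · rw [Finset.mul_sum, Finset.mul_sum]
      congr 1
      · exact Finset.sum_congr rfl fun q _ => by rw [hWr _ (by simp [o])]
      · exact Finset.sum_congr rfl fun q _ => by rw [hWr _ (by simp [o])]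
    · refine Finset.sum_congr rfl fun i _ => ?_
      rw [Finset.mul_sum]
      exact Finset.sum_congr rfl fun x _ => by rw [hWe]
  have hnode : ∑ i, ρ i * ∑ x : Fin (k i) × Fin (k i), (mlt (y (e (Sum.inr ⟨i, x⟩))) F : ℝ) ≤
      ∑ i, ρ i * (k i : ℝ) * mlt (Y0 i) G := by
    refine Finset.sum_le_sum fun i _ => ?_
    have h3 : (((∑ x : Fin (k i) × Fin (k i), mlt (y (e (Sum.inr ⟨i, x⟩))) F : ℕ)) : ℝ) ≤
        ((k i * mlt (Y0 i) G : ℕ) : ℝ) := by
      exact_mod_cast hG3 i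
    push_cast at h3
    calc ρ i * ∑ x : Fin (k i) × Fin (k i), (mlt (y (e (Sum.inr ⟨i, x⟩))) F : ℝ) ≤
        ρ i * ((k i : ℝ) * mlt (Y0 i) G) := mul_le_mul_of_nonneg_left h3 (hρ0 i)
      _ = ρ i * (k i : ℝ) * mlt (Y0 i) G := by ring
  -- the clusters at the lines
  have hl0 : (j : ℝ) * ((mlt (x 0) F : ℝ) + mlt (x' 1) F) +
      ∑ q : Fin 2 × (Fin j × Fin j), (mlt (y (e (Sum.inl (0, q)))) F : ℝ) ≤
      j * (2 * ε + F.degreeOf 0) := by exact_mod_cast hG4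
  have hl1 : (j : ℝ) * ((mlt (x' 0) F : ℝ) + mlt (x 1) F) +
      ∑ q : Fin 2 × (Fin j × Fin j), (mlt (y (e (Sum.inl (1, q)))) F : ℝ) ≤
      j * (2 * ε' + F.degreeOf 0) := by exact_mod_cast hG5
  obtain ⟨s, hs⟩ : ∃ s : ℝ, s = j * r := ⟨_, rfl⟩
  have hs' : 0 ≤ s := by
    rw [hs]
    positivity
  rw [← hs] at hs0 hs1 hsb
  have h1 := nef_split a b s c (fun i => ρ i * k i) hs' ha hR hab (by
    have : ∑ i, (ρ i * (k i : ℝ)) ^ 2 + 4 * s ^ 2 = n * r ^ 2 + β ^ 2 := by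
      rw [Fin.sum_univ_four, ← hn, hs]
      simp [hρ, hk]
      ring
    rw [this]
    exact hq) hsb hP0 hGP
  -- semicontinuity
  have hx : ∀ i, (mlt (x i) F : ℝ) ≤ mlt (PO i) G := fun i => by exact_mod_cast hG1 i
  have hx' : ∀ i, (mlt (x' i) F : ℝ) ≤ mlt (PI i) G := fun i => by exact_mod_cast hG2 i
  have t0 : (c 0 - s) * ((mlt (x 0) F : ℝ) + mlt (x' 0) F) ≤
      (c 0 - s) * (mlt (PO 0) G + mlt (PI 0) G) :=
    mul_le_mul_of_nonneg_left (add_le_add (hx 0) (hx' 0)) (by linarith)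
  have t1 : (c 1 - s) * ((mlt (x 1) F : ℝ) + mlt (x' 1) F) ≤
      (c 1 - s) * (mlt (PO 1) G + mlt (PI 1) G) :=
    mul_le_mul_of_nonneg_left (add_le_add (hx 1) (hx' 1)) (by linarith)
  have t2 : c 2 * ((mlt (x 2) F : ℝ) + mlt (x' 2) F) ≤ c 2 * (mlt (PO 2) G + mlt (PI 2) G) :=
    mul_le_mul_of_nonneg_left (add_le_add (hx 2) (hx' 2)) (hc 2)
  have t3 : c 3 * ((mlt (x 3) F : ℝ) + mlt (x' 3) F) ≤ c 3 * (mlt (PO 3) G + mlt (PI 3) G) :=
    mul_le_mul_of_nonneg_left (add_le_add (hx 3) (hx' 3)) (hc 3)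
  have t4 : c 4 * ((mlt (x 4) F : ℝ) + mlt (x' 4) F) ≤ c 4 * (mlt (PO 4) G + mlt (PI 4) G) :=
    mul_le_mul_of_nonneg_left (add_le_add (hx 4) (hx' 4)) (hc 4)
  have h7 : a * (G.degreeOf 1 : ℝ) ≤ a * F.degreeOf 1 :=
    mul_le_mul_of_nonneg_left (by exact_mod_cast hGd 1) ha
  have h8 : (b - 2 * s) * (G.degreeOf 0 : ℝ) ≤ (b - 2 * s) * F.degreeOf 0 :=
    mul_le_mul_of_nonneg_left (by exact_mod_cast hGd 0) (by linarith)
  have u0 := mul_le_mul_of_nonneg_left hl0 hr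
  have u1 := mul_le_mul_of_nonneg_left hl1 hr
  have v0 : r * ((j : ℝ) * ((mlt (x 0) F : ℝ) + mlt (x' 1) F) +
      ∑ q : Fin 2 × (Fin j × Fin j), (mlt (y (e (Sum.inl (0, q)))) F : ℝ)) =
      s * ((mlt (x 0) F : ℝ) + mlt (x' 1) F) +
      r * ∑ q : Fin 2 × (Fin j × Fin j), (mlt (y (e (Sum.inl (0, q)))) F : ℝ) := by
    rw [hs]
    ring
  have v1 : r * ((j : ℝ) * ((mlt (x' 0) F : ℝ) + mlt (x 1) F) +
      ∑ q : Fin 2 × (Fin j × Fin j), (mlt (y (e (Sum.inl (1, q)))) F : ℝ)) =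
      s * ((mlt (x' 0) F : ℝ) + mlt (x 1) F) +
      r * ∑ q : Fin 2 × (Fin j × Fin j), (mlt (y (e (Sum.inl (1, q)))) F : ℝ) := by
    rw [hs]
    ring
  have v2 : r * ((j : ℝ) * (2 * ε + F.degreeOf 0)) = s * (2 * ε + F.degreeOf 0) := by
    rw [hs]
    ring
  have v3 : r * ((j : ℝ) * (2 * ε' + F.degreeOf 0)) = s * (2 * ε' + F.degreeOf 0) := by
    rw [hs]
    ring
  rw [v0, v2] at u0
  rw [v1, v3] at u1
  rw [add_assoc, hy, Fin.sum_univ_five]
  linarith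

end Pool.Agent.Lib.MP_ed661f_ag.Ro
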