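import Pool.Agent.Lib.MP_ed661f_ag.S.Main
import Pool.Agent.Lib.MP_ed661f_ag.Ro.SecO
import Pool.Agent.Lib.MP_ed661f_ag.Ro.FamO
import Pool.Agent.Lib.MP_ed661f_ag.Ro.FourSq

/-!
The very general surfaces of degree at least six: all numbers of points.
-/

set_option autoImplicit false

open MvPolynomial

namespace Pool.Agent.Lib.MP_ed661f_ag.Ro

open H R E S

/-- **the base data** for all odd degrees from `7` on, every number of points -/
theorem baseD_odd {d : ℕ} (hd : 7 ≤ d) (ho : Odd d) (n : ℕ) : BaseD d n := by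
  obtain ⟨D1, rfl⟩ := ho
  obtain ⟨a, b, c, -, hab, hD, hR, hc0, hc1, hb, hgen⟩ := family_genericW' (D0 := D1 + 1) (by omega)
  obtain ⟨z, hz⟩ := exists_generic 11
  let e : (Fin 5 ⊕ Fin 5) ⊕ Fin 1 ≃ Fin 11 :=
    (Equiv.sumCongr (finSumFinEquiv (m := 5) (n := 5)) (Equiv.refl (Fin 1))).trans
      (finSumFinEquiv (m := 10) (n := 1))
  have hz2 : Generic (Sum.elim (Sum.elim (fun i : Fin 5 => z (e (Sum.inl (Sum.inl i))))
      (fun i : Fin 5 => z (e (Sum.inl (Sum.inr i))))) (fun _ : Fin 1 => z (e (Sum.inr 0)))) := by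
    have h1 := hz.comp e (Equiv.injective _)
    convert h1 using 1
    funext q
    rcases q with (i | i) | i
    · rfl
    · rfl
    · rw [Subsingleton.elim i 0]
      rfl
  obtain ⟨f, hf, h4, h3⟩ := hgen _ _ _ hz2
  obtain ⟨j, k0, k1, k2, hn⟩ := exists_even_four n
  have e1 : 2 * (D1 + 1) - 1 = 2 * D1 + 1 := by omega
  rw [e1] at hc0 hc1 hb h4
  exact baseD_of_secO hz2 hab hR.symm (d := 2 * D1 + 1) (β := 1) (by omega) (by rw [hD]; ring)
    hc0 hc1 hb hf h3 (fun m H hm hH h => h4 m hm H hH h) hn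

/-- **the base data** for all degrees from `6` on -/
theorem baseD_all {d : ℕ} (hd : 6 ≤ d) (n : ℕ) : BaseD d n := by
  rcases Nat.even_or_odd d with he | ho
  · exact baseD hd he n
  · have : d ≠ 6 := by
      rintro rfl
      exact absurd ho (by decide)
    exact baseD_odd (by omega) ho n

/-- **Theorem.** Let `F` be a very general form of degree `d ≥ 6` in four variables. Then `F = 0` is
a smooth irreducible surface of degree `d`, and its multipoint Seshadri constants have the largest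
possible value `√(d/n)` for every `n ≥ 1`. -/
theorem main {d : ℕ} (hd : 6 ≤ d) {F : Poly 3} (hF : VeryGeneral d F) :
    IsSurface (Ideal.span {F}) ∧ IsSmooth F ∧ surfDeg (Ideal.span {F}) = d ∧
      ∀ n : ℕ, 1 ≤ n → eps (Ideal.span {F}) n = ENNReal.ofReal (Real.sqrt ((d : ℝ) / n)) :=
  ⟨isSurface_of_veryGeneral (by omega) hF, smooth_of_veryGeneral (by omega) hF,
    surfDeg_span hF.1 (irreducible_of_veryGeneral (by omega) hF).ne_zero,
    fun n hn => eps_eq (by omega) hn (formsOut hd (baseD_all hd n)) (curvesOf d hn) hF⟩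

end Pool.Agent.Lib.MP_ed661f_ag.Ro
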