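import Pool.Agent.Lib.MP_ed661f_ag.Ro.Clus
import Pool.Agent.Lib.MP_ed661f_ag.Ro.Per

/-!
Specialisation of generic points to the special configuration with one relation. `2 j ^ 2` points
move to each of the two lines of the configuration, the points `PO 1` and `PI 1` leave these lines,
and `k i ^ 2` points go to the `i`-th fixed point.
-/

set_option autoImplicit false

open MvPolynomial

namespace Pool.Agent.Lib.MP_ed661f_ag.Ro

open Pool.Agent.Lib.MP_ed661f_ag.E Pool.Agent.Lib.MP_ed661f_ag.R Pool.Agent.Lib.MP_6b2d39_ag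

/-! ### the points on the two lines -/

theorem PO0 : PO 0 = ![((11 / 4 : ℝ) : ℂ), 5] := by
  ext i
  fin_cases i
  · change (4 * TO 0 - 1) / (2 * TO 0 - 2) = ((11 / 4 : ℝ) : ℂ)
    rw [show TO 0 = 3 from rfl]
    push_cast
    norm_num
  · change (2 * TO 0 - 1) / (TO 0 - 2) = 5
    rw [show TO 0 = 3 from rfl]
    norm_num

theorem PO1 : PO 1 = ![((-1 / 4 : ℝ) : ℂ), 1 / 5] := by
  ext i
  fin_cases i
  · change (4 * TO 1 - 1) / (2 * TO 1 - 2) = ((-1 / 4 : ℝ) : ℂ)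
    rw [show TO 1 = 1 / 3 from rfl]
    push_cast
    norm_num
  · change (2 * TO 1 - 1) / (TO 1 - 2) = 1 / 5
    rw [show TO 1 = 1 / 3 from rfl]
    norm_num

theorem PI0 : PI 0 = ![((4 / 11 : ℝ) : ℂ), 1 / 5] := by
  ext i
  fin_cases i
  · change (PO 0 0)⁻¹ = ((4 / 11 : ℝ) : ℂ)
    rw [PO0]
    simp
  · change (PO 0 1)⁻¹ = 1 / 5
    rw [PO0]
    simp

theorem PI1 : PI 1 = ![((-4 : ℝ) : ℂ), 5] := by
  ext i
  fin_cases i
  · change (PO 1 0)⁻¹ = ((-4 : ℝ) : ℂ)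
    rw [PO1]
    push_cast
    simp
    norm_num
  · change (PO 1 1)⁻¹ = 5
    rw [PO1]
    simp

theorem noNat_of {u : ℝ} {p q : ℤ} (hq : (q : ℝ) * u = p) (h : ¬ q ∣ p) : NoNat u := by
  intro n hn
  apply h
  refine ⟨(n : ℤ) + 1, ?_⟩
  rw [← hn] at hq
  exact_mod_cast hq.symm

theorem nn1 : NoNat (11 / 4) :=
  noNat_of (p := 11) (q := 4) (by norm_num) (by norm_num)
theorem nn2 : NoNat (4 / 11) :=
  noNat_of (p := 4) (q := 11) (by norm_num) (by norm_num)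
theorem nn3 : NoNat (-4) := by
  intro n hn
  have : (0 : ℝ) ≤ n := Nat.cast_nonneg n
  linarith
theorem nn4 : NoNat (-1 / 4) := by
  intro n hn
  have : (0 : ℝ) ≤ n := Nat.cast_nonneg n
  linarith

/-! ### positions over `ℂ[t]` -/

/-- indices of the points: five, five, twice `2 j ^ 2`, and `k i ^ 2` for `i = 0, .., 3` -/
abbrev IndO (j : ℕ) (k : Fin 4 → ℕ) : Type :=
  Fin 5 ⊕ Fin 5 ⊕ (Fin 2 × (Fin 2 × (Fin j × Fin j))) ⊕
    (i : Fin 4) × (Fin (k i) × Fin (k i))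

/-- a position; it moves vertically if `b` -/
noncomputable def mv (p : Pt) (b : Prop) [Decidable b] : Fin 2 → Polynomial ℂ :=
  ![Polynomial.C (p 0), Polynomial.C (p 1) + if b then Polynomial.X else 0]

/-- abscissas and ordinates of the lines -/
noncomputable def U1 (l : Fin 2) : ℝ := if l = 0 then 11 / 4 else 4 / 11
noncomputable def U2 (l : Fin 2) : ℝ := if l = 0 then -4 else -1 / 4
noncomputable def V (l : Fin 2) : ℂ := if l = 0 then 5 else 1 / 5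

/-- the positions of the points over `ℂ[t]` -/
noncomputable def wptO (j : ℕ) (k : Fin 4 → ℕ) : IndO j k → Fin 2 → Polynomial ℂ
  | Sum.inl i => mv (PO i) (i = 1)
  | Sum.inr (Sum.inl i) => mv (PI i) (i = 1)
  | Sum.inr (Sum.inr (Sum.inl x)) =>
      ![Polynomial.C (gpos (U1 x.1) (U2 x.1) x.2 0),
        Polynomial.C (V x.1) + Polynomial.X * Polynomial.C (gpos (U1 x.1) (U2 x.1) x.2 1)]
  | Sum.inr (Sum.inr (Sum.inr ⟨i, x⟩)) =>
      ![Polynomial.C (Y0 i 0) + Polynomial.X * Polynomial.C ((x.1 : ℕ) : ℂ),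
        Polynomial.C (Y0 i 1) + Polynomial.X * Polynomial.C ((x.2 : ℕ) : ℂ)]

/-- conditions at a point over `ℂ[t]` give conditions at the limit point -/
theorem eval_zero_cond' {A B : ℕ} (c : Fin (A + 1) × Fin (B + 1) → Polynomial ℂ)
    (p q : Polynomial ℂ) (a b : ℕ)
    (h : ∑ j : Fin (A + 1) × Fin (B + 1), Transfer.entry p q a b j.1 j.2 * c j = 0) :
    ∑ j : Fin (A + 1) × Fin (B + 1),
      Transfer.entry (p.eval 0) (q.eval 0) a b j.1 j.2 * (c j).eval 0 = 0 := by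
  have h1 := congrArg (Polynomial.eval 0) h
  rw [Polynomial.eval_finsetSum, Polynomial.eval_zero] at h1
  refine Eq.trans ?_ h1
  refine Finset.sum_congr rfl fun j _ => ?_
  rw [Polynomial.eval_mul]
  congr 1
  exact (Transfer.map_entry (Polynomial.evalRingHom 0) p q a b j.1 j.2).symm

theorem le_mlt_mv {A B : ℕ} {c : Fin (A + 1) × Fin (B + 1) → Polynomial ℂ}
    (hG : ofC (fun j => (c j).eval 0) ≠ 0) (p : Pt) (b : Prop) [Decidable b] (m : ℕ)
    (h : ∀ a a', a + a' < m → ∑ j : Fin (A + 1) × Fin (B + 1),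
      Transfer.entry (mv p b 0) (mv p b 1) a a' j.1 j.2 * c j = 0) :
    m ≤ mlt p (ofC fun j => (c j).eval 0) := by
  refine le_mlt_ofC hG fun a a' hab => ?_
  have h1 := eval_zero_cond' c _ _ a a' (h a a' hab)
  have h2 : (mv p b 0).eval 0 = p 0 := by simp [mv]
  have h3 : (mv p b 1).eval 0 = p 1 := by
    by_cases hb : b
    · simp [mv, hb]
    · simp [mv, hb]
  rwa [h2, h3] at h1

theorem dvd_pow_split {G : Pol} (hG : G ≠ 0) : ∃ (e e' : ℕ) (P P1 P2 : Pol), P ≠ 0 ∧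
    G = (X 1 - C (5 : ℂ)) ^ e * ((X 1 - C (1 / 5 : ℂ)) ^ e' * P) ∧
    (G = (X 1 - C (5 : ℂ)) ^ e * P1 ∧ ¬ (X 1 - C (5 : ℂ)) ∣ P1) ∧
    (G = (X 1 - C (1 / 5 : ℂ)) ^ e' * P2 ∧ ¬ (X 1 - C (1 / 5 : ℂ)) ∣ P2) := by
  have hu : ∀ v : ℂ, ¬ IsUnit (X 1 - C v : Pol) := by
    intro v h
    have h1 := h.map (eval ![0, v] : Pol →+* ℂ)
    simp at h1
  obtain ⟨e, P1, h1, h2⟩ := WfDvdMonoid.max_power_factor' hG (hu 5)
  obtain ⟨e', P2, h3, h4⟩ := WfDvdMonoid.max_power_factor' hG (hu (1 / 5))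
  have hcop : IsCoprime (X 1 - C (5 : ℂ) : Pol) (X 1 - C (1 / 5 : ℂ)) := by
    refine ⟨C (-5 / 24), C (5 / 24), ?_⟩
    have h5 : (C (-5 / 24 : ℂ) : Pol) = - C (5 / 24) := by
      rw [← C_neg]
      norm_num
    have h6 : (C (5 / 24 : ℂ) : Pol) * C 5 - C (5 / 24) * C (1 / 5) = 1 := by
      rw [← C_mul, ← C_mul, ← C_sub, ← C_1]
      norm_num
    rw [h5]
    linear_combination h6
  have h5 : (X 1 - C (5 : ℂ) : Pol) ^ e ∣ P2 := by
    refine (IsCoprime.pow (m := e) (n := e') hcop).dvd_of_dvd_mul_left ?_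
    rw [← h4, h2]
    exact Dvd.intro _ rfl
  obtain ⟨P, hP⟩ := h5
  refine ⟨e, e', P, P1, P2, ?_, ?_, ⟨h2, h1⟩, ⟨h4, h3⟩⟩
  · intro h
    apply hG
    rw [h4, hP, h, mul_zero, mul_zero]
  · rw [h4, hP]
    ring

/-- the specialisation -/
theorem specialiseO (j : ℕ) (k : Fin 4 → ℕ) {z : IndO j k → Pt} (hz : Generic z) {F : Pol}
    (hF : F ≠ 0) :
    ∃ (e e' : ℕ) (G P : Pol), G ≠ 0 ∧ P ≠ 0 ∧
      G = (X 1 - C (5 : ℂ)) ^ e * ((X 1 - C (1 / 5 : ℂ)) ^ e' * P) ∧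
      (∀ i, G.degreeOf i ≤ F.degreeOf i) ∧
      (∀ i, mlt (z (Sum.inl i)) F ≤ mlt (PO i) G) ∧
      (∀ i, mlt (z (Sum.inr (Sum.inl i))) F ≤ mlt (PI i) G) ∧
      (∀ i, ∑ x : Fin (k i) × Fin (k i), mlt (z (Sum.inr (Sum.inr (Sum.inr ⟨i, x⟩)))) F ≤
        k i * mlt (Y0 i) G) ∧
      (j * (mlt (z (Sum.inl 0)) F + mlt (z (Sum.inr (Sum.inl 1))) F) +
        ∑ q, mlt (z (Sum.inr (Sum.inr (Sum.inl (0, q))))) F ≤ j * (2 * e + F.degreeOf 0)) ∧
      (j * (mlt (z (Sum.inr (Sum.inl 0))) F + mlt (z (Sum.inl 1)) F) +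
        ∑ q, mlt (z (Sum.inr (Sum.inr (Sum.inl (1, q))))) F ≤ j * (2 * e' + F.degreeOf 0)) := by
  have hbox : F ∈ Box (F.degreeOf 0) (F.degreeOf 1) := mem_Box.2 ⟨le_rfl, le_rfl⟩
  obtain ⟨c, ⟨j0, hj0⟩, hc⟩ := transfer_t hz hbox hF (fun i => mlt (z i) F) (fun _ => le_rfl)
    (wptO j k)
  have hG : ofC (fun j => (c j).eval 0) ≠ 0 := by
    intro h
    have := coeff_ofC (fun j => (c j).eval 0) j0
    rw [h, coeff_zero] at this
    exact hj0 this.symm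
  obtain ⟨e, e', P, P1, P2, hP, hGP, ⟨hG1, hP1⟩, ⟨hG2, hP2⟩⟩ := dvd_pow_split hG
  refine ⟨e, e', ofC fun j => (c j).eval 0, P, hG, hP, hGP, ?_, ?_, ?_, ?_, ?_, ?_⟩
  · have h1 := mem_Box.1 (ofC_mem fun j => (c j).eval 0)
    intro i
    fin_cases i
    · exact h1.1
    · exact h1.2
  · intro i
    exact le_mlt_mv hG _ _ _ fun a b hab => hc (Sum.inl i) a b hab
  · intro i
    exact le_mlt_mv hG _ _ _ fun a b hab => hc (Sum.inr (Sum.inl i)) a b hab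
  · intro i
    refine collapse c hG (Y0 i) (k i) _ fun x a b hab => ?_
    exact hc (Sum.inr (Sum.inr (Sum.inr ⟨i, x⟩))) a b hab
  · refine line_clus c 5 e P1 hG1 hP1 (u1 := 11 / 4) (u2 := -4) nn1 nn3 (by norm_num) j _ _ _
      (fun a b hab => ?_) (fun a b hab => ?_) (fun q a b hab => ?_)
    · have h1 := hc (Sum.inl 0) a b hab
      simpa [wptO, mv, PO0] using h1
    · have h1 := hc (Sum.inr (Sum.inl 1)) a b hab
      simpa [wptO, mv, PI1] using h1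
    · have h1 := hc (Sum.inr (Sum.inr (Sum.inl (0, q)))) a b hab
      simpa [wptO, V, U1, U2] using h1
  · refine line_clus c (1 / 5) e' P2 hG2 hP2 (u1 := 4 / 11) (u2 := -1 / 4) nn2 nn4 (by norm_num)
      j _ _ _ (fun a b hab => ?_) (fun a b hab => ?_) (fun q a b hab => ?_)
    · have h1 := hc (Sum.inr (Sum.inl 0)) a b hab
      simpa [wptO, mv, PI0] using h1
    · have h1 := hc (Sum.inl 1) a b hab
      simpa [wptO, mv, PO1] using h1
    · have h1 := hc (Sum.inr (Sum.inr (Sum.inl (1, q)))) a b hab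
      simpa [wptO, V, U1, U2] using h1

end Pool.Agent.Lib.MP_ed661f_ag.Ro
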